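import Pool.Agent.H85.WS.Defs

set_option autoImplicit false

/-!
# Unions of chains of length omega

PROOF of `exists_omega_limit`. Let `P` be the direct limit (`FirstOrder.Language.DirectLimit`) of
the directed system given by `DirectedSystem.natLERec` (or `Nat.leRec`) from the maps `u n`, and let
`i n` be the canonical embeddings (`DirectLimit.of`). The ranges of the `i n` form a chain of
substructures of `P` whose union is everything (`DirectLimit.exists_of`), and for `n ≤ m` the range
of `i n` is strong in the range of `i m`, because the map `Q n → Q m` is strong (a composition of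
the `u k`); so every range is strong in `P` by the axiom `K.chain`.

PROOF of `omega_limit_lift`. Define `V` by `V (i n x) = v n x` (well defined and injective: two
elements come from a common `Q n`, the maps `v n`, `i n` are injective and compatible); it
preserves functions and relations, as finitely many elements come from a common `Q n`. Its range
is the supremum of the chain of the ranges of the `v n`, strong by `K.smooth`.
-/

open FirstOrder FirstOrder.Language Cardinal

namespace Pool.Agent.H85.AECT

universe w

variable {L : FirstOrder.Language.{w, w}} {K : AEC L}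

namespace AEC

private theorem strongEmb_refl {M : Type w} [L.Structure M] (hM : K.Mem M) :
    K.StrongEmb (Embedding.refl L M) :=
  strongEmb_equiv (Language.Equiv.refl L M) hM

private theorem rec_succ {Q : ℕ → Type w} [∀ n, L.Structure (Q n)]
    (u : ∀ n, Q n ↪[L] Q (n + 1)) (n k : ℕ) (h : n ≤ n + k) (h' : n ≤ n + (k + 1)) (x : Q n) :
    DirectedSystem.natLERec u n (n + (k + 1)) h' x =
      u (n + k) (DirectedSystem.natLERec u n (n + k) h x) := by
  rw [DirectedSystem.coe_natLERec, DirectedSystem.coe_natLERec]
  exact Nat.leRecOn_succ h x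

private theorem rec_self {Q : ℕ → Type w} [∀ n, L.Structure (Q n)]
    (u : ∀ n, Q n ↪[L] Q (n + 1)) (n : ℕ) (h : n ≤ n) (x : Q n) :
    DirectedSystem.natLERec u n n h x = x := by
  rw [DirectedSystem.coe_natLERec]
  exact Nat.leRecOn_self x

private theorem rec_compat {Q : ℕ → Type w} [∀ n, L.Structure (Q n)]
    {u : ∀ n, Q n ↪[L] Q (n + 1)} {H : Type w} [L.Structure H] (v : ∀ n, Q n ↪[L] H)
    (hvu : ∀ n x, v (n + 1) (u n x) = v n x) (n m : ℕ) (h : n ≤ m) (x : Q n) :
    v m (DirectedSystem.natLERec u n m h x) = v n x := by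
  obtain ⟨k, rfl⟩ := Nat.exists_eq_add_of_le h
  induction k with
  | zero => exact congrArg (v n) (rec_self u n h x)
  | succ k ih =>
    rw [rec_succ u n k (Nat.le_add_right n k) h x]
    exact (hvu (n + k) _).trans (ih (Nat.le_add_right n k))

private theorem rec_strong {Q : ℕ → Type w} [∀ n, L.Structure (Q n)]
    (u : ∀ n, Q n ↪[L] Q (n + 1)) (hu : ∀ n, K.StrongEmb (u n)) (n m : ℕ) (h : n ≤ m) :
    K.StrongEmb (DirectedSystem.natLERec u n m h) := by
  obtain ⟨k, rfl⟩ := Nat.exists_eq_add_of_le h
  induction k with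
  | zero =>
    have e : DirectedSystem.natLERec u n (n + 0) h = Embedding.refl L (Q n) := by
      ext x
      exact rec_self u n h x
    rw [e]
    exact strongEmb_refl (hu n).mem_left
  | succ k ih =>
    have e : DirectedSystem.natLERec u n (n + (k + 1)) h =
        (u (n + k)).comp (DirectedSystem.natLERec u n (n + k) (Nat.le_add_right n k)) := by
      ext x
      exact rec_succ u n k (Nat.le_add_right n k) h x
    rw [e]
    exact (hu (n + k)).comp (ih (Nat.le_add_right n k))

private theorem range_mono {Q : ℕ → Type w} [∀ n, L.Structure (Q n)]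
    {u : ∀ n, Q n ↪[L] Q (n + 1)} {H : Type w} [L.Structure H] (v : ∀ n, Q n ↪[L] H)
    (hvu : ∀ n x, v (n + 1) (u n x) = v n x) :
    Monotone fun n => (v n).toHom.range := by
  intro n m h
  show (v n).toHom.range ≤ (v m).toHom.range
  rintro y ⟨x, rfl⟩
  exact ⟨DirectedSystem.natLERec u n m h x, rec_compat v hvu n m h x⟩

private theorem strong_range {A B N : Type w} [L.Structure A] [L.Structure B] [L.Structure N]
    {g : A ↪[L] B} (hg : K.StrongEmb g) (h : B ↪[L] N) (f : A ↪[L] N)
    (hf : ∀ x, h (g x) = f x) :
    K.Strong h.toHom.range (f.toHom.range.comap h.toHom.range.subtype.toHom) := by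
  have h1 := K.iso _ _ h.equivRange _ hg
  have h3 : g.toHom.range.map h.equivRange.toHom =
      f.toHom.range.comap h.toHom.range.subtype.toHom := by
    ext y
    constructor
    · rintro ⟨_, ⟨x, rfl⟩, rfl⟩
      exact ⟨x, (hf x).symm⟩
    · rintro ⟨x, hx⟩
      refine ⟨g x, ⟨x, rfl⟩, ?_⟩
      apply Subtype.ext
      exact (hf x).trans hx
  rwa [h3] at h1

theorem exists_omega_limit (Q : ℕ → Type w) [∀ n, L.Structure (Q n)]
    (u : ∀ n, Q n ↪[L] Q (n + 1)) (hu : ∀ n, K.StrongEmb (u n)) :
    ∃ (P : Type w) (_ : L.Structure P) (i : ∀ n, Q n ↪[L] P),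
      (∀ n, K.StrongEmb (i n)) ∧ (∀ n x, i (n + 1) (u n x) = i n x) ∧ ∀ p, ∃ n x, i n x = p := by
  set i : ∀ n, Q n ↪[L] Language.DirectLimit Q (DirectedSystem.natLERec u) :=
    fun n => Language.DirectLimit.of L ℕ Q (DirectedSystem.natLERec u) n with hi
  have hc : ∀ n x, i (n + 1) (u n x) = i n x := by
    intro n x
    have h1 := Language.DirectLimit.of_f (L := L) (G := Q) (f := DirectedSystem.natLERec u)
      (hij := Nat.le_succ n) (x := x)
    have h2 : DirectedSystem.natLERec u n (n + 1) (Nat.le_succ n) x = u n x := by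
      rw [rec_succ u n 0 (le_refl n) (Nat.le_succ n) x]
      exact congrArg (u n) (rec_self u n (le_refl n) x)
    rw [← h2]
    exact h1
  have hs : ∀ p, ∃ n x, i n x = p := fun p => Language.DirectLimit.exists_of p
  refine ⟨Language.DirectLimit Q (DirectedSystem.natLERec u), inferInstance, i, ?_, hc, hs⟩
  intro n
  have hmono := range_mono i hc
  refine K.chain _ (Set.range fun n => (i n).toHom.range) (Set.range_nonempty _)
    hmono.isChain_range ?_ ?_ _ ⟨n, rfl⟩
  · rw [eq_top_iff]
    intro p _
    obtain ⟨n, x, hx⟩ := hs p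
    exact (le_sSup ⟨n, rfl⟩ : (i n).toHom.range ≤ sSup (Set.range fun n => (i n).toHom.range))
      ⟨x, hx⟩
  · rintro _ ⟨a, rfl⟩ _ ⟨b, rfl⟩ hab
    rcases le_total a b with h | h
    · exact strong_range (rec_strong u hu a b h) (i b) (i a) (fun x => rec_compat i hc a b h x)
    · have he : (i a).toHom.range = (i b).toHom.range := le_antisymm hab (hmono h)
      show K.Strong (i b).toHom.range ((i a).toHom.range.comap (i b).toHom.range.subtype.toHom)
      rw [he]
      exact strong_range (strongEmb_refl (hu b).mem_left) (i b) (i b) (fun x => rfl)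

theorem omega_limit_lift {Q : ℕ → Type w} [∀ n, L.Structure (Q n)]
    {u : ∀ n, Q n ↪[L] Q (n + 1)} {P : Type w} [L.Structure P] {i : ∀ n, Q n ↪[L] P}
    (hi : ∀ n x, i (n + 1) (u n x) = i n x) (hsurj : ∀ p, ∃ n x, i n x = p)
    {H : Type w} [L.Structure H] (v : ∀ n, Q n ↪[L] H) (hv : ∀ n, K.StrongEmb (v n))
    (hvu : ∀ n x, v (n + 1) (u n x) = v n x) :
    ∃ V : P ↪[L] H, K.StrongEmb V ∧ ∀ n x, V (i n x) = v n x := by
  set F : Language.DirectLimit Q (DirectedSystem.natLERec u) ↪[L] P :=
    Language.DirectLimit.lift L ℕ Q (DirectedSystem.natLERec u) i (fun n m h x => rec_compat i hi n m h x)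
    with hF
  set W : Language.DirectLimit Q (DirectedSystem.natLERec u) ↪[L] H :=
    Language.DirectLimit.lift L ℕ Q (DirectedSystem.natLERec u) v (fun n m h x => rec_compat v hvu n m h x)
    with hW
  have hFi : ∀ n x, F (Language.DirectLimit.of L ℕ Q (DirectedSystem.natLERec u) n x) = i n x :=
    fun n x => Language.DirectLimit.lift_of i _ x
  have hWv : ∀ n x, W (Language.DirectLimit.of L ℕ Q (DirectedSystem.natLERec u) n x) = v n x :=
    fun n x => Language.DirectLimit.lift_of v _ x
  have hFs : Function.Surjective F := by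
    intro p
    obtain ⟨n, x, hx⟩ := hsurj p
    exact ⟨_, (hFi n x).trans hx⟩
  let E : Language.DirectLimit Q (DirectedSystem.natLERec u) ≃[L] P :=
    ⟨Equiv.ofBijective F ⟨F.injective, hFs⟩, F.map_fun', F.map_rel'⟩
  have hE : ∀ d, E d = F d := fun d => rfl
  refine ⟨W.comp E.symm.toEmbedding, ?_, ?_⟩
  · have h1 : (W.comp E.symm.toEmbedding).toHom.range = ⨆ n, (v n).toHom.range := by
      rw [← Language.DirectLimit.range_lift v (fun n m h x => rec_compat v hvu n m h x)]
      apply le_antisymm
      · rintro y ⟨p, rfl⟩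
        exact ⟨E.symm p, rfl⟩
      · rintro y ⟨d, rfl⟩
        refine ⟨E d, ?_⟩
        show W (E.symm (E d)) = W d
        rw [Language.Equiv.symm_apply_apply]
    show K.Strong H (W.comp E.symm.toEmbedding).toHom.range
    rw [h1]
    refine K.smooth H (Set.range fun n => (v n).toHom.range) (Set.range_nonempty _)
      (range_mono v hvu).isChain_range ?_
    rintro _ ⟨n, rfl⟩
    exact hv n
  · intro n x
    show W (E.symm (i n x)) = v n x
    have h2 : E.symm (i n x) = Language.DirectLimit.of L ℕ Q (DirectedSystem.natLERec u) n x := by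
      rw [← hFi n x, ← hE, Language.Equiv.symm_apply_apply]
    rw [h2]
    exact hWv n x

end AEC

end Pool.Agent.H85.AECT
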