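import Pool.Agent.H85.WS.TreeDefs
import Pool.Agent.H85.WS.Limit

set_option autoImplicit false

/-!
# Types along the branches of a tree

Write `C n = cl (P n ∪ {a})`, a strong substructure of `N` (closures).

PROOF of `branch_step`. Put `s = b` on `Fin (n + 1)`. By `I.exist` there is an independent amalgam
`A` of `Q (n + 1)` (via `F (n + 1) s`) and `C (n + 1)` over `P (n + 1)`. In `A`: `Q n` and `P (n + 1)` are
independent over `P n` (`T.ind_level`, symmetry, `I.inv`), and `Q (n + 1)` and `C (n + 1)` are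
independent over `P (n + 1)`, so by `I.trans` `Q n` and `C (n + 1)` are independent over `P n`,
hence so are `Q n` and `C n` (`mono_right`). So `G` and `A` are both independent amalgams of `Q n` and
`C n` over `P n`, and by `I.unique` (`P n → C n` the inclusion, `P n → Q n` the map `F n _`) there is
`G'` with strong embeddings `t : G → G'`, `A → G'` which agree on `Q n` and on `C n`.
(Remember that independences have to be pushed forward along `A → G'` by `I.inv`.)

PROOF of `exists_branch`. Iterate `branch_step` (start: `G 0` an independent amalgam of `Q 0` and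
`C 0` over `P 0`, `I.exist`) to get a sequence `G 0 → G 1 → ...`, take its limit `G`
(`exists_omega_limit`), and let `V` come from `omega_limit_lift`.
-/

open FirstOrder FirstOrder.Language Cardinal

namespace Pool.Agent.H85.AECT

universe w

variable {L : FirstOrder.Language.{w, w}} {K : AEC L}

namespace AEC

namespace WeaklyStable

variable {I : K.WeaklyStable} {N : Type w} [L.Structure N] {P : ℕ → L.Substructure N}
  {hmono : ∀ n, P n ≤ P (n + 1)} {Λ : Type w} {μ : Cardinal.{w}}

/-- `G` is an independent amalgam of the level `Q n` of the tree and of `cl (P n ∪ {a})` over the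
copy `b` restricted to `n` of `P n`. -/
def IsBranch (T : I.Tree P hmono Λ μ) (a : N) (b : ℕ → Λ) (n : ℕ) (G : Type w) [L.Structure G]
    (v : T.Q n ↪[L] G) (c : K.cl (insert a (P n : Set N)) ↪[L] G) : Prop :=
  K.StrongEmb v ∧ K.StrongEmb c ∧
    (∀ (x : P n) (y : K.cl (insert a (P n : Set N))), (x : N) = y →
      c y = v (T.F n (fun k => b k) x)) ∧
    I.Ind G ((T.F n (fun k => b k)).toHom.range.map v.toHom) c.toHom.range v.toHom.range

private theorem mem_range' {M N : Type w} [L.Structure M] [L.Structure N] (f : M ↪[L] N) (z : N) :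
    z ∈ f.toHom.range ↔ ∃ x, f x = z := by
  rw [Hom.mem_range]
  rfl

private theorem range_subtype' {N : Type w} [L.Structure N] (M : L.Substructure N) :
    M.subtype.toHom.range = M := by
  ext x
  simp [Hom.mem_range]

private theorem map_range' {M N P : Type w} [L.Structure M] [L.Structure N] [L.Structure P]
    (g : N ↪[L] P) (f : M ↪[L] N) :
    f.toHom.range.map g.toHom = (g.comp f).toHom.range := by
  rw [← Hom.range_comp]
  congr 1

private theorem range_congr' {M N P Q : Type w} [L.Structure M] [L.Structure N] [L.Structure P]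
    [L.Structure Q] (g : N ↪[L] P) (f : M ↪[L] N) (g' : Q ↪[L] P) (f' : M ↪[L] Q)
    (h : ∀ x, g (f x) = g' (f' x)) : (g.comp f).toHom.range = (g'.comp f').toHom.range := by
  ext z
  rw [mem_range', mem_range']
  constructor
  · rintro ⟨x, hx⟩
    exact ⟨x, (h x).symm.trans hx⟩
  · rintro ⟨x, hx⟩
    exact ⟨x, (h x).trans hx⟩

private theorem strong_inclusion' {N : Type w} [L.Structure N] {A B : L.Substructure N}
    (hA : K.Strong N A) (hB : K.Strong N B) (h : A ≤ B) :
    K.StrongEmb (Substructure.inclusion h) := by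
  have h1 := (strong_subtype hB).comap hA (by rw [range_subtype']; exact h)
  have h2 : (Substructure.inclusion h).toHom.range = A.comap B.subtype.toHom := by
    ext x
    rw [mem_range']
    constructor
    · rintro ⟨y, rfl⟩
      exact y.2
    · intro hx
      exact ⟨⟨x, hx⟩, rfl⟩
  unfold StrongEmb
  rw [h2]
  exact h1

private theorem le_cl' (M : L.Substructure N) (a : N) : M ≤ K.cl (insert a (M : Set N)) :=
  fun _ hx => subset_cl _ (Set.mem_insert_of_mem _ hx)

private theorem IsBranch.push {T : I.Tree P hmono Λ μ} {a : N} {b : ℕ → Λ} {n : ℕ} {G : Type w}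
    [L.Structure G] {v : T.Q n ↪[L] G} {c : K.cl (insert a (P n : Set N)) ↪[L] G}
    (h : IsBranch T a b n G v c) {G' : Type w} [L.Structure G'] {t : G ↪[L] G'}
    (ht : K.StrongEmb t) : IsBranch T a b n G' (t.comp v) (t.comp c) := by
  obtain ⟨h1, h2, h3, h4⟩ := h
  refine ⟨ht.comp h1, ht.comp h2, ?_, ?_⟩
  · intro x y hxy
    exact congrArg t (h3 x y hxy)
  · have h5 := (I.inv G G' t ht _ _ _).mp h4
    rw [map_range', map_range', map_range', map_range'] at h5
    rw [map_range']
    exact h5

theorem branch_start (hK : K.HasClosures) (T : I.Tree P hmono Λ μ) (hP : ∀ n, K.Strong N (P n))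
    (a : N) (b : ℕ → Λ) :
    ∃ (G : Type w) (_ : L.Structure G) (v : T.Q 0 ↪[L] G)
      (c : K.cl (insert a (P 0 : Set N)) ↪[L] G), IsBranch T a b 0 G v c := by
  obtain ⟨G, hG, g1, g2, h1, h2, h3, h4⟩ := I.exist (P 0) (K.cl (insert a (P 0 : Set N))) (T.Q 0)
    (Substructure.inclusion (le_cl' (K := K) (P 0) a)) (T.F 0 (fun k => b k))
    (strong_inclusion' (hP 0) (hK N (P 0) a (hP 0)) _) (T.strong_F 0 _)
  refine ⟨G, hG, g2, g1, h2, h1, ?_, ?_⟩
  · intro x y hxy
    have h5 := h3 x
    have h6 : Substructure.inclusion (le_cl' (K := K) (P 0) a) x = y := Subtype.ext hxy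
    rw [h6] at h5
    exact h5
  · rw [map_range', ← range_congr' g1 _ g2 _ h3]
    exact h4

theorem branch_step (hK : K.HasClosures) (T : I.Tree P hmono Λ μ) (hP : ∀ n, K.Strong N (P n))
    (a : N) (b : ℕ → Λ) (n : ℕ) (G : Type w) [L.Structure G] (v : T.Q n ↪[L] G)
    (c : K.cl (insert a (P n : Set N)) ↪[L] G) (h : IsBranch T a b n G v c) :
    ∃ (G' : Type w) (_ : L.Structure G') (t : G ↪[L] G') (v' : T.Q (n + 1) ↪[L] G')
      (c' : K.cl (insert a (P (n + 1) : Set N)) ↪[L] G'), K.StrongEmb t ∧
      IsBranch T a b (n + 1) G' v' c' ∧ (∀ x, t (v x) = v' (T.u n x)) ∧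
      ∀ (x : K.cl (insert a (P n : Set N))) (y : K.cl (insert a (P (n + 1) : Set N))),
        (x : N) = y → t (c x) = c' y := by
  have sC : ∀ n, K.Strong N (K.cl (insert a (P n : Set N))) := fun n => hK N (P n) a (hP n)
  have hCC : K.cl (insert a (P n : Set N)) ≤ K.cl (insert a (P (n + 1) : Set N)) :=
    cl_mono (Set.insert_subset_insert (hmono n))
  obtain ⟨A, hA, p1, p2, k1, k2, k3, k4⟩ := I.exist (P (n + 1))
    (K.cl (insert a (P (n + 1) : Set N))) (T.Q (n + 1))
    (Substructure.inclusion (le_cl' (K := K) (P (n + 1)) a)) (T.F (n + 1) (fun k => b k))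
    (strong_inclusion' (hP _) (sC _) _) (T.strong_F _ _)
  -- the embeddings of the smaller structures
  have sq : K.StrongEmb (p1.comp (Substructure.inclusion hCC)) :=
    k1.comp (strong_inclusion' (sC _) (sC _) _)
  have sr : K.StrongEmb (p2.comp (T.u n)) := k2.comp (T.strong_u n)
  have hqr : ∀ m : P n, (p1.comp (Substructure.inclusion hCC))
      (Substructure.inclusion (le_cl' (K := K) (P n) a) m) =
      (p2.comp (T.u n)) (T.F n (fun k => b k) m) := by
    intro m
    have e1 := k3 (Substructure.inclusion (hmono n) m)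
    have e2 := T.F_succ n (fun k => b k) m
    rw [e2] at e1
    exact e1
  -- level and `P (n + 1)`
  have i1 := (I.inv (T.Q (n + 1)) A p2 k2 _ _ _).mp (T.ind_level n (fun k => b k))
  rw [map_range', map_range', map_range', map_range'] at i1
  have e3 : (p2.comp (T.F (n + 1) (fun k => b k))).toHom.range =
      (p1.comp (Substructure.inclusion (le_cl' (K := K) (P (n + 1)) a))).toHom.range :=
    (range_congr' p1 _ p2 _ k3).symm
  rw [e3] at i1
  have i2 := I.trans A _ _ _ _ _ (I.symm _ _ _ _ i1) (I.symm _ _ _ _ k4) (by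
    rintro z ⟨y, rfl⟩
    exact ⟨T.u n y, rfl⟩)
  have e4 : (p2.comp ((T.u n).comp (T.F n (fun k => b k)))).toHom.range =
      ((p1.comp (Substructure.inclusion hCC)).comp
        (Substructure.inclusion (le_cl' (K := K) (P n) a))).toHom.range :=
    (range_congr' (p1.comp (Substructure.inclusion hCC)) _ p2
      ((T.u n).comp (T.F n (fun k => b k))) hqr).symm
  have e5 : (p2.comp ((T.u n).comp (T.F n (fun k => (fun k : Fin (n + 1) => b k) k.castSucc)))) =
      (p2.comp ((T.u n).comp (T.F n (fun k => b k)))) := rfl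
  rw [e5, e4] at i2
  have i3 : I.Ind A ((p1.comp (Substructure.inclusion hCC)).comp
        (Substructure.inclusion (le_cl' (K := K) (P n) a))).toHom.range
      (p2.comp (T.u n)).toHom.range (p1.comp (Substructure.inclusion hCC)).toHom.range := by
    refine I.mono_right i2 sq ?_ ?_
    · rintro z ⟨y, rfl⟩
      exact ⟨Substructure.inclusion (le_cl' (K := K) (P n) a) y, rfl⟩
    · rintro z ⟨y, rfl⟩
      exact ⟨Substructure.inclusion hCC y, rfl⟩
  have hcv : ∀ m : P n, c (Substructure.inclusion (le_cl' (K := K) (P n) a) m) =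
      v (T.F n (fun k => b k) m) := fun m => h.2.2.1 m _ rfl
  obtain ⟨G', hG', t, t', ht, ht', hx1, hx2⟩ := I.unique (P n)
    (K.cl (insert a (P n : Set N))) (T.Q n) G A
    (Substructure.inclusion (le_cl' (K := K) (P n) a)) (T.F n (fun k => b k)) c v
    (p1.comp (Substructure.inclusion hCC)) (p2.comp (T.u n))
    (strong_inclusion' (hP _) (sC _) _) (T.strong_F _ _) h.2.1 h.1 sq sr hcv hqr
    (by
      have h5 := h.2.2.2
      rw [map_range', ← range_congr' c _ v _ hcv] at h5
      exact h5)
    (I.symm _ _ _ _ i3)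
  refine ⟨G', hG', t, t'.comp p2, t'.comp p1, ht, ⟨ht'.comp k2, ht'.comp k1, ?_, ?_⟩, hx2, ?_⟩
  · intro x y hxy
    have h5 := k3 x
    have h6 : Substructure.inclusion (le_cl' (K := K) (P (n + 1)) a) x = y := Subtype.ext hxy
    rw [h6] at h5
    exact congrArg t' h5
  · have h5 := (I.inv A G' t' ht' _ _ _).mp k4
    rw [← e3, map_range', map_range', map_range'] at h5
    rw [map_range']
    exact h5
  · intro x y hxy
    have h5 := hx1 x
    have h6 : Substructure.inclusion hCC x = y := Subtype.ext hxy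
    have h7 : (p1.comp (Substructure.inclusion hCC)) x = p1 y := congrArg p1 h6
    rw [h7] at h5
    exact h5

/-- a branch of length `n` -/
private structure BSt (T : I.Tree P hmono Λ μ) (a : N) (b : ℕ → Λ) (n : ℕ) where
  G : Type w
  [str : L.Structure G]
  v : T.Q n ↪[L] G
  c : K.cl (insert a (P n : Set N)) ↪[L] G
  h : IsBranch T a b n G v c

attribute [instance] BSt.str

theorem exists_branch (hK : K.HasClosures) (T : I.Tree P hmono Λ μ)
    (hP : ∀ n, K.Strong N (P n)) (a : N) {Qω : Type w} [L.Structure Qω]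
    {i : ∀ n, T.Q n ↪[L] Qω} (hi : ∀ n, K.StrongEmb (i n))
    (hiu : ∀ n x, i (n + 1) (T.u n x) = i n x) (hsurj : ∀ p, ∃ n x, i n x = p) (b : ℕ → Λ) :
    ∃ (G : Type w) (_ : L.Structure G) (V : Qω ↪[L] G)
      (W : ∀ n, K.cl (insert a (P n : Set N)) ↪[L] G), K.StrongEmb V ∧
      (∀ n, IsBranch T a b n G (V.comp (i n)) (W n)) ∧
      ∀ n (x : K.cl (insert a (P n : Set N))) (y : K.cl (insert a (P (n + 1) : Set N))),
        (x : N) = y → W n x = W (n + 1) y := by
  obtain ⟨G0, hG0, v0, c0, h0⟩ := branch_start hK T hP a b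
  have step : ∀ n (S : BSt T a b n), ∃ (S' : BSt T a b (n + 1)) (t : S.G ↪[L] S'.G),
      K.StrongEmb t ∧ (∀ x, t (S.v x) = S'.v (T.u n x)) ∧
      ∀ (x : K.cl (insert a (P n : Set N))) (y : K.cl (insert a (P (n + 1) : Set N))),
        (x : N) = y → t (S.c x) = S'.c y := by
    intro n S
    obtain ⟨G', hG', t, v', c', h1, h2, h3, h4⟩ := branch_step hK T hP a b n S.G S.v S.c S.h
    exact ⟨⟨G', v', c', h2⟩, t, h1, h3, h4⟩
  choose nx tt k1 k2 k3 using step
  let S : ∀ n, BSt T a b n := fun n =>
    Nat.rec (motive := fun n => BSt T a b n) ⟨G0, v0, c0, h0⟩ (fun n S => nx n S) n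
  let t : ∀ n, (S n).G ↪[L] (S (n + 1)).G := fun n => tt n (S n)
  have ht : ∀ n, K.StrongEmb (t n) := fun n => k1 n (S n)
  obtain ⟨G, hG, j, hj, hju, _⟩ := exists_omega_limit (K := K) (fun n => (S n).G) t ht
  obtain ⟨V, hV, hVi⟩ := omega_limit_lift (K := K) hiu hsurj (fun n => (j n).comp (S n).v)
    (fun n => (hj n).comp (S n).h.1) (by
      intro n x
      show j (n + 1) ((S (n + 1)).v (T.u n x)) = j n ((S n).v x)
      rw [← hju n ((S n).v x)]
      exact congrArg (j (n + 1)) (k2 n (S n) x).symm)
  refine ⟨G, hG, V, fun n => (j n).comp (S n).c, hV, ?_, ?_⟩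
  · intro n
    have e : V.comp (i n) = (j n).comp (S n).v := by
      ext x
      exact hVi n x
    rw [e]
    exact (S n).h.push (hj n)
  · intro n x y hxy
    show j n ((S n).c x) = j (n + 1) ((S (n + 1)).c y)
    rw [← hju n ((S n).c x)]
    exact congrArg (j (n + 1)) (k3 n (S n) x y hxy)

end WeaklyStable

end AEC

end Pool.Agent.H85.AECT
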