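import Pool.Agent.H85.AECT.Closing

set_option autoImplicit false

/-!
# Galois stability and weakly stable independence notions
-/

open FirstOrder FirstOrder.Language Cardinal

namespace Pool.Agent.H85.AECT

universe w

variable {L : FirstOrder.Language.{w, w}}

namespace AEC

variable (K : AEC L)

/-- The class is (Galois-)stable in `μ`: over every model of cardinality `μ` there are at most `μ`
Galois types, that is, in every family of more than `μ` types over such a model two are equal. -/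
def StableIn (μ : Cardinal.{w}) : Prop :=
  ∀ (M : Type w) [L.Structure M], K.Mem M → #M = μ →
    ∀ (ι : Type w) (N : ι → Type w) [∀ i, L.Structure (N i)] (f : ∀ i, M ↪[L] N i)
      (a : ∀ i, N i), (∀ i, K.StrongEmb (f i)) → μ < #ι →
      ∃ i j, i ≠ j ∧ K.SameType (f i) (a i) (f j) (a j)

/-- A weakly stable independence notion: a relation `Ind N M₀ M₁ M₂` (`M₁` and `M₂` are
independent over `M₀` in `N`) between strong substructures `M₀ ≤ M₁` and `M₀ ≤ M₂` of `N` which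
is invariant, symmetric and transitive and has existence and uniqueness of independent
amalgams. -/
structure WeaklyStable where
  /-- the independence relation -/
  Ind : ∀ (N : Type w) [L.Structure N], L.Substructure N → L.Substructure N →
    L.Substructure N → Prop
  /-- it relates strong substructures -/
  strong : ∀ (N : Type w) [L.Structure N] (M₀ M₁ M₂ : L.Substructure N), Ind N M₀ M₁ M₂ →
    K.Strong N M₀ ∧ K.Strong N M₁ ∧ K.Strong N M₂ ∧ M₀ ≤ M₁ ∧ M₀ ≤ M₂
  /-- invariance under strong embeddings of the ambient structure -/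
  inv : ∀ (N N' : Type w) [L.Structure N] [L.Structure N'] (g : N ↪[L] N'), K.StrongEmb g →
    ∀ M₀ M₁ M₂ : L.Substructure N,
      Ind N M₀ M₁ M₂ ↔ Ind N' (M₀.map g.toHom) (M₁.map g.toHom) (M₂.map g.toHom)
  /-- existence of independent amalgams -/
  exist : ∀ (M N₁ N₂ : Type w) [L.Structure M] [L.Structure N₁] [L.Structure N₂]
    (f₁ : M ↪[L] N₁) (f₂ : M ↪[L] N₂), K.StrongEmb f₁ → K.StrongEmb f₂ →
    ∃ (N : Type w) (_ : L.Structure N) (g₁ : N₁ ↪[L] N) (g₂ : N₂ ↪[L] N),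
      K.StrongEmb g₁ ∧ K.StrongEmb g₂ ∧ (∀ m, g₁ (f₁ m) = g₂ (f₂ m)) ∧
      Ind N (g₁.comp f₁).toHom.range g₁.toHom.range g₂.toHom.range
  /-- uniqueness of independent amalgams -/
  unique : ∀ (M N₁ N₂ N N' : Type w) [L.Structure M] [L.Structure N₁] [L.Structure N₂]
    [L.Structure N] [L.Structure N'] (f₁ : M ↪[L] N₁) (f₂ : M ↪[L] N₂)
    (g₁ : N₁ ↪[L] N) (g₂ : N₂ ↪[L] N) (g₁' : N₁ ↪[L] N') (g₂' : N₂ ↪[L] N'),
    K.StrongEmb f₁ → K.StrongEmb f₂ → K.StrongEmb g₁ → K.StrongEmb g₂ → K.StrongEmb g₁' →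
    K.StrongEmb g₂' → (∀ m, g₁ (f₁ m) = g₂ (f₂ m)) → (∀ m, g₁' (f₁ m) = g₂' (f₂ m)) →
    Ind N (g₁.comp f₁).toHom.range g₁.toHom.range g₂.toHom.range →
    Ind N' (g₁'.comp f₁).toHom.range g₁'.toHom.range g₂'.toHom.range →
    ∃ (P : Type w) (_ : L.Structure P) (h : N ↪[L] P) (h' : N' ↪[L] P),
      K.StrongEmb h ∧ K.StrongEmb h' ∧ (∀ x, h (g₁ x) = h' (g₁' x)) ∧
      ∀ x, h (g₂ x) = h' (g₂' x)
  /-- transitivity -/
  trans : ∀ (N : Type w) [L.Structure N] (M₀ M₁ M₂ M₃ M₄ : L.Substructure N),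
    Ind N M₀ M₁ M₂ → Ind N M₂ M₃ M₄ → M₁ ≤ M₃ → Ind N M₀ M₁ M₄
  /-- symmetry -/
  symm : ∀ (N : Type w) [L.Structure N] (M₀ M₁ M₂ : L.Substructure N), Ind N M₀ M₁ M₂ →
    Ind N M₀ M₂ M₁

end AEC

end Pool.Agent.H85.AECT
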