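import Pool.Agent.H85.WS.Branch

set_option autoImplicit false

/-!
# Different branches have different types

PROOF of `not_sameType`. Let `n` be least with `b n ≠ b' n`, `s = b` and `s' = b'` on `Fin (n + 1)`; they
have the same restriction to `Fin n`. Write `C n = cl (P n ∪ {a})`, and
`R = V (i (n+1) (F (n+1) s (P n)))`, which is `V (i n (F n _ (P n)))`.

(1) In `G`: the copies `s'` and `s` of `P (n + 1)` are independent over `R` (`T.ind_ne`, pushed along
`i (n + 1)` and `V` by `I.inv`), and `Q (n + 1)` and `W (n + 1) (C (n + 1))` are independent over the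
copy `s` of `P (n + 1)` (`IsBranch` for `n + 1`, symmetry). By `I.trans` the copy `s'` of
`P (n + 1)` and `W (n + 1) (C (n + 1))` are independent over `R`; by `mono_right` and symmetry
`W n (C n)` (the image of `C n` under `W (n + 1)`) and the copy `s'` are independent over `R`. Here
`W n (C n)` is the closure of `R ∪ {W 0 a}` in `G` (`cl_image`).

(2) In `G'`: if `W' n (C n)` and the copy `s'` of `P (n + 1)` were independent over the image `R'` of
`P n`, then by `I.inv` along `W' (n + 1)` (which maps `P n`, `C n`, `P (n + 1)` to these) and along the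
inclusion `C (n + 1) → N` we would get `I.Ind N (P n) (C n) (P (n + 1))`, against `hdep`. Here
`W' n (C n)` is the closure of `R' ∪ {W' 0 a}` in `G'`.

(3) If the types were the same there would be strong embeddings `g : G → A`, `g' : G' → A` which agree
on `Qω` and send `W 0 a`, `W' 0 a` to the same element. They send `R`, `R'` to the same
substructure, the copies `s'` to the same, and the closures `W n (C n)`, `W' n (C n)` to the same
(`cl_image`). By `I.inv` twice, (1) contradicts (2).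
-/

open FirstOrder FirstOrder.Language Cardinal

namespace Pool.Agent.H85.AECT

universe w

variable {L : FirstOrder.Language.{w, w}} {K : AEC L}

namespace AEC

/-- The range of a strong embedding of a closure is the closure of the image. -/
private theorem range_eq_cl (hK : K.HasClosures) {N : Type w} [L.Structure N]
    {P : L.Substructure N} (hP : K.Strong N P) (a : N) {A : Type w} [L.Structure A]
    (f : K.cl (insert a (P : Set N)) ↪[L] A) (hf : K.StrongEmb f) :
    f.toHom.range = K.cl (insert (f ⟨a, subset_cl _ (Set.mem_insert _ _)⟩)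
      (f '' {x | (x : N) ∈ P})) := by
  have sC : K.Strong N (K.cl (insert a (P : Set N))) := hK N P a hP
  have hPC : P ≤ K.cl (insert a (P : Set N)) := fun x hx =>
    subset_cl _ (Set.mem_insert_of_mem _ hx)
  have sP : K.Strong (K.cl (insert a (P : Set N)))
      (P.comap (K.cl (insert a (P : Set N))).subtype.toHom) := K.coherence _ _ _ hP sC hPC
  have hset : (f '' {x | (x : N) ∈ P}) =
      (((P.comap (K.cl (insert a (P : Set N))).subtype.toHom).map f.toHom :
        L.Substructure A) : Set A) := rfl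
  have sD : K.Strong A (K.cl (insert (f ⟨a, subset_cl _ (Set.mem_insert _ _)⟩)
      (f '' {x | (x : N) ∈ P}))) := by
    rw [hset]
    exact hK _ _ _ (hf.map sP)
  have hDr : K.cl (insert (f ⟨a, subset_cl _ (Set.mem_insert _ _)⟩)
      (f '' {x | (x : N) ∈ P})) ≤ f.toHom.range := by
    apply cl_le hf
    rintro z (rfl | ⟨x, _, rfl⟩)
    · exact ⟨_, rfl⟩
    · exact ⟨x, rfl⟩
  apply le_antisymm
  · have s1 := (strong_subtype sC).map (hf.comap sD hDr)
    have s2 := cl_le (A := insert a (P : Set N)) s1 (by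
      rintro x (rfl | hx)
      · exact ⟨⟨_, subset_cl _ (Set.mem_insert _ _)⟩, subset_cl _ (Set.mem_insert _ _), rfl⟩
      · exact ⟨⟨x, hPC hx⟩, subset_cl _ (Set.mem_insert_of_mem _ ⟨⟨x, hPC hx⟩, hx, rfl⟩), rfl⟩)
    rintro _ ⟨x, rfl⟩
    obtain ⟨y, hy, hyx⟩ := s2 x.2
    have h3 : y = x := Subtype.ext hyx
    subst h3
    exact hy
  · exact hDr

namespace WeaklyStable

variable {I : K.WeaklyStable} {N : Type w} [L.Structure N] {P : ℕ → L.Substructure N}
  {hmono : ∀ n, P n ≤ P (n + 1)} {Λ : Type w} {μ : Cardinal.{w}}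

theorem not_sameType (hK : K.HasClosures) (T : I.Tree P hmono Λ μ)
    (hP : ∀ n, K.Strong N (P n)) (a : N)
    (hdep : ∀ n, ¬ I.Ind N (P n) (K.cl (insert a (P n : Set N))) (P (n + 1)))
    {Qω : Type w} [L.Structure Qω]
    {i : ∀ n, T.Q n ↪[L] Qω} (hi : ∀ n, K.StrongEmb (i n))
    (hiu : ∀ n x, i (n + 1) (T.u n x) = i n x) (b b' : ℕ → Λ) (hbb' : b ≠ b')
    {G G' : Type w} [L.Structure G] [L.Structure G'] {V : Qω ↪[L] G} {V' : Qω ↪[L] G'}
    {W : ∀ n, K.cl (insert a (P n : Set N)) ↪[L] G}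
    {W' : ∀ n, K.cl (insert a (P n : Set N)) ↪[L] G'}
    (hV : K.StrongEmb V) (hV' : K.StrongEmb V')
    (hW : ∀ n, IsBranch T a b n G (V.comp (i n)) (W n))
    (hW' : ∀ n, IsBranch T a b' n G' (V'.comp (i n)) (W' n))
    (hWs : ∀ n (x : K.cl (insert a (P n : Set N))) (y : K.cl (insert a (P (n + 1) : Set N))),
        (x : N) = y → W n x = W (n + 1) y)
    (hWs' : ∀ n (x : K.cl (insert a (P n : Set N))) (y : K.cl (insert a (P (n + 1) : Set N))),
        (x : N) = y → W' n x = W' (n + 1) y) :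
    ¬ K.SameType V (W 0 ⟨a, subset_cl _ (Set.mem_insert _ _)⟩) V'
      (W' 0 ⟨a, subset_cl _ (Set.mem_insert _ _)⟩) := by
  classical
  rintro ⟨A, _, g, g', hg, hg', hgV, hga⟩
  obtain ⟨m, hm⟩ := Function.ne_iff.mp hbb'
  have hex : ∃ m, b m ≠ b' m := ⟨m, hm⟩
  obtain ⟨n, hn, hlt⟩ : ∃ n, b n ≠ b' n ∧ ∀ k < n, b k = b' k :=
    ⟨Nat.find hex, Nat.find_spec hex, fun k hk => not_not.mp (Nat.find_min hex hk)⟩
  -- the two restrictions
  have hres : (fun k : Fin n => b k) = (fun k : Fin n => b' k) := by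
    funext k
    exact hlt k k.2
  have hs : (fun k : Fin (n + 1) => b' k) ≠ (fun k : Fin (n + 1) => b k) := by
    intro h
    exact hn (congrFun h (Fin.last n)).symm
  have hhs : (fun k : Fin n => (fun k : Fin (n + 1) => b' k) k.castSucc) =
      (fun k : Fin n => (fun k : Fin (n + 1) => b k) k.castSucc) := hres.symm
  obtain ⟨vn, wn, cn, -⟩ := hW n
  obtain ⟨vn1, wn1, cn1, indn1⟩ := hW (n + 1)
  obtain ⟨vn', wn', cn', -⟩ := hW' n
  obtain ⟨vn1', wn1', cn1', -⟩ := hW' (n + 1)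
  have hPC : ∀ k, P k ≤ K.cl (insert a (P k : Set N)) := fun k x hx =>
    subset_cl _ (Set.mem_insert_of_mem _ hx)
  have hCC : K.cl (insert a (P n : Set N)) ≤ K.cl (insert a (P (n + 1) : Set N)) :=
    cl_mono (Set.insert_subset_insert (hmono n))
  -- (1)
  have i1 := T.ind_ne n (fun k => b' k) (fun k => b k) hs hhs
  have i2 := (I.inv _ G (V.comp (i (n + 1))) vn1 _ _ _).mp i1
  have i3 := I.trans G _ _ _ _ _ i2 (I.symm _ _ _ _ indn1) (by
    rintro z ⟨y, _, rfl⟩
    exact ⟨y, rfl⟩)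
  have hR : ∀ z, z ∈ ((T.F n (fun k : Fin n => b' k)).toHom.range.map (T.u n).toHom).map
      (V.comp (i (n + 1))).toHom ↔ ∃ x : P n, V (i n (T.F n (fun k => b' k) x)) = z := by
    intro z
    constructor
    · rintro ⟨_, ⟨_, ⟨x, rfl⟩, rfl⟩, rfl⟩
      exact ⟨x, congrArg V (hiu n _).symm⟩
    · rintro ⟨x, rfl⟩
      exact ⟨_, ⟨_, ⟨x, rfl⟩, rfl⟩, congrArg V (hiu n _)⟩
  have hR' : ∀ z, z ∈ ((T.F n (fun k : Fin n => b' k)).toHom.range.map (T.u n).toHom).map
      (V'.comp (i (n + 1))).toHom ↔ ∃ x : P n, V' (i n (T.F n (fun k => b' k) x)) = z := by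
    intro z
    constructor
    · rintro ⟨_, ⟨_, ⟨x, rfl⟩, rfl⟩, rfl⟩
      exact ⟨x, congrArg V' (hiu n _).symm⟩
    · rintro ⟨x, rfl⟩
      exact ⟨_, ⟨_, ⟨x, rfl⟩, rfl⟩, congrArg V' (hiu n _)⟩
  have cnb : ∀ (x : P n), V (i n (T.F n (fun k => b' k) x)) = W n ⟨x, hPC n x.2⟩ := by
    intro x
    rw [cn x ⟨x, hPC n x.2⟩ rfl, hres]
    rfl
  have i4 := I.mono_right i3 (M₂' := (W n).toHom.range) wn (by
      intro z hz
      obtain ⟨x, rfl⟩ := (hR z).mp hz
      exact ⟨⟨x, hPC n x.2⟩, (cnb x).symm⟩) (by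
      rintro _ ⟨x, rfl⟩
      exact ⟨⟨x, hCC x.2⟩, (hWs n x ⟨x, hCC x.2⟩ rfl).symm⟩)
  -- (3)
  have i5 := (I.inv G A g hg _ _ _).mp i4
  have e0 : (((T.F n (fun k : Fin n => b' k)).toHom.range.map (T.u n).toHom).map
      (V.comp (i (n + 1))).toHom).map g.toHom =
      (((T.F n (fun k : Fin n => b' k)).toHom.range.map (T.u n).toHom).map
      (V'.comp (i (n + 1))).toHom).map g'.toHom := by
    ext z
    constructor
    · rintro ⟨_, ⟨y, hy, rfl⟩, rfl⟩
      exact ⟨_, ⟨y, hy, rfl⟩, (hgV (i (n + 1) y)).symm⟩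
    · rintro ⟨_, ⟨y, hy, rfl⟩, rfl⟩
      exact ⟨_, ⟨y, hy, rfl⟩, hgV (i (n + 1) y)⟩
  have e1 : ((T.F (n + 1) (fun k => b' k)).toHom.range.map
      (V.comp (i (n + 1))).toHom).map g.toHom =
      ((T.F (n + 1) (fun k => b' k)).toHom.range.map
      (V'.comp (i (n + 1))).toHom).map g'.toHom := by
    ext z
    constructor
    · rintro ⟨_, ⟨y, hy, rfl⟩, rfl⟩
      exact ⟨_, ⟨y, hy, rfl⟩, (hgV (i (n + 1) y)).symm⟩
    · rintro ⟨_, ⟨y, hy, rfl⟩, rfl⟩
      exact ⟨_, ⟨y, hy, rfl⟩, hgV (i (n + 1) y)⟩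
  have wa : ∀ k, W k ⟨a, subset_cl _ (Set.mem_insert _ _)⟩ =
      W 0 ⟨a, subset_cl _ (Set.mem_insert _ _)⟩ := by
    intro k
    induction k with
    | zero => rfl
    | succ k ih => rw [← ih]; exact (hWs k _ _ rfl).symm
  have wa' : ∀ k, W' k ⟨a, subset_cl _ (Set.mem_insert _ _)⟩ =
      W' 0 ⟨a, subset_cl _ (Set.mem_insert _ _)⟩ := by
    intro k
    induction k with
    | zero => rfl
    | succ k ih => rw [← ih]; exact (hWs' k _ _ rfl).symm
  have e2 : (W n).toHom.range.map g.toHom = (W' n).toHom.range.map g'.toHom := by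
    have r1 := range_eq_cl hK (hP n) a (g.comp (W n)) (hg.comp wn)
    have r2 := range_eq_cl hK (hP n) a (g'.comp (W' n)) (hg'.comp wn')
    have r3 : (g.comp (W n)) ⟨a, subset_cl _ (Set.mem_insert _ _)⟩ =
        (g'.comp (W' n)) ⟨a, subset_cl _ (Set.mem_insert _ _)⟩ := by
      show g (W n _) = g' (W' n _)
      rw [wa n, wa' n]
      exact hga
    have r4 : (g.comp (W n)) '' {x | (x : N) ∈ P n} =
        (g'.comp (W' n)) '' {x | (x : N) ∈ P n} := by
      apply Set.image_congr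
      intro x hx
      show g (W n x) = g' (W' n x)
      rw [cn ⟨x, hx⟩ x rfl, cn' ⟨x, hx⟩ x rfl, hres]
      exact hgV _
    rw [r3, r4, ← r2] at r1
    have m1 : (W n).toHom.range.map g.toHom = (g.comp (W n)).toHom.range := by
      ext z
      constructor
      · rintro ⟨_, ⟨x, rfl⟩, rfl⟩
        exact ⟨x, rfl⟩
      · rintro ⟨x, rfl⟩
        exact ⟨_, ⟨x, rfl⟩, rfl⟩
    have m2 : (W' n).toHom.range.map g'.toHom = (g'.comp (W' n)).toHom.range := by
      ext z
      constructor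
      · rintro ⟨_, ⟨x, rfl⟩, rfl⟩
        exact ⟨x, rfl⟩
      · rintro ⟨x, rfl⟩
        exact ⟨_, ⟨x, rfl⟩, rfl⟩
    rw [m1, m2, r1]
  have i6 : I.Ind A
      ((((T.F n (fun k : Fin n => b' k)).toHom.range.map (T.u n).toHom).map
        (V'.comp (i (n + 1))).toHom).map g'.toHom)
      (((T.F (n + 1) (fun k => b' k)).toHom.range.map
        (V'.comp (i (n + 1))).toHom).map g'.toHom)
      ((W' n).toHom.range.map g'.toHom) := by
    rw [← e0, ← e1, ← e2]
    exact i5
  have i7 := I.symm _ _ _ _ ((I.inv G' A g' hg' _ _ _).mpr i6)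
  -- (2)
  apply hdep n
  have sC1 : K.Strong N (K.cl (insert a (P (n + 1) : Set N))) := hK N _ a (hP (n + 1))
  have back : ∀ S : L.Substructure N, S ≤ K.cl (insert a (P (n + 1) : Set N)) →
      (S.comap (K.cl (insert a (P (n + 1) : Set N))).subtype.toHom).map
        (K.cl (insert a (P (n + 1) : Set N))).subtype.toHom = S := by
    intro S hS
    ext z
    constructor
    · rintro ⟨y, hy, rfl⟩
      exact hy
    · intro hz
      exact ⟨⟨z, hS hz⟩, hz, rfl⟩
  have i8 : I.Ind (K.cl (insert a (P (n + 1) : Set N)))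
      ((P n).comap (K.cl (insert a (P (n + 1) : Set N))).subtype.toHom)
      ((K.cl (insert a (P n : Set N))).comap
        (K.cl (insert a (P (n + 1) : Set N))).subtype.toHom)
      ((P (n + 1)).comap (K.cl (insert a (P (n + 1) : Set N))).subtype.toHom) := by
    refine (I.inv _ G' (W' (n + 1)) wn1' _ _ _).mpr ?_
    have f0 : ((P n).comap (K.cl (insert a (P (n + 1) : Set N))).subtype.toHom).map
        (W' (n + 1)).toHom = ((T.F n (fun k : Fin n => b' k)).toHom.range.map (T.u n).toHom).map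
        (V'.comp (i (n + 1))).toHom := by
      ext z
      rw [hR']
      constructor
      · rintro ⟨y, hy, rfl⟩
        exact ⟨⟨y, hy⟩, (cn' ⟨y, hy⟩ ⟨y, hPC n hy⟩ rfl).symm.trans (hWs' n _ _ rfl)⟩
      · rintro ⟨x, rfl⟩
        exact ⟨⟨x, hCC (hPC n x.2)⟩, x.2,
          (hWs' n _ _ rfl).symm.trans (cn' x ⟨x, hPC n x.2⟩ rfl)⟩
    have f1 : ((K.cl (insert a (P n : Set N))).comap
        (K.cl (insert a (P (n + 1) : Set N))).subtype.toHom).map
        (W' (n + 1)).toHom = (W' n).toHom.range := by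
      ext z
      constructor
      · rintro ⟨y, hy, rfl⟩
        exact ⟨⟨y, hy⟩, hWs' n _ _ rfl⟩
      · rintro ⟨x, rfl⟩
        exact ⟨⟨x, hCC x.2⟩, x.2, (hWs' n _ _ rfl).symm⟩
    have f2 : ((P (n + 1)).comap (K.cl (insert a (P (n + 1) : Set N))).subtype.toHom).map
        (W' (n + 1)).toHom = (T.F (n + 1) (fun k => b' k)).toHom.range.map
        (V'.comp (i (n + 1))).toHom := by
      ext z
      constructor
      · rintro ⟨y, hy, rfl⟩
        exact ⟨_, ⟨⟨y, hy⟩, rfl⟩, (cn1' ⟨y, hy⟩ y rfl).symm⟩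
      · rintro ⟨_, ⟨x, rfl⟩, rfl⟩
        exact ⟨⟨x, hPC (n + 1) x.2⟩, x.2, cn1' x _ rfl⟩
    rw [f0, f1, f2]
    exact i7
  have i9 := (I.inv _ N _ (strong_subtype sC1) _ _ _).mp i8
  rwa [back _ ((hmono n).trans (hPC (n + 1))), back _ hCC, back _ (hPC (n + 1))] at i9

end WeaklyStable

end AEC

end Pool.Agent.H85.AECT
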