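import Pool.Agent.H85.AECT.Closing

set_option autoImplicit false

/-!
# Gluing isomorphisms of closures along a chain

PROOF of `isos_glue`. Write `U = sSup (Sigma.fst '' D)`. The set `Sigma.fst '' D` is a nonempty
chain of strong substructures of `M`, so by `exists_mem_clOver_of_chain` every element of
`clOver f₁ a₁ U` lies in `clOver f₁ a₁ p.1` for some `p ∈ D`, and the same for `f₂, a₂` (there an
element of `clOver f₂ a₂ p.1` is `p.2 x` for some `x`). By `hcoh` the maps `p.2` glue to a bijection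
`clOver f₁ a₁ U → clOver f₂ a₂ U`; since finitely many elements lie in one `clOver f₁ a₁ p.1` with
`p ∈ D` (chain), it preserves functions and relations (compare the last part of
`exists_iso_top` in `H85/AECT/Main.lean`).
-/

open FirstOrder FirstOrder.Language Cardinal

namespace Pool.Agent.H85.AECT

universe w

variable {L : FirstOrder.Language.{w, w}} {K : AEC L}

namespace AEC

theorem isos_glue (hK : K.HasClosures) {M N₁ N₂ : Type w} [L.Structure M] [L.Structure N₁]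
    [L.Structure N₂] {f₁ : M ↪[L] N₁} {a₁ : N₁} {f₂ : M ↪[L] N₂} {a₂ : N₂}
    (hf₁ : K.StrongEmb f₁) (hf₂ : K.StrongEmb f₂)
    (D : Set (Σ Q : L.Substructure M, (K.clOver f₁ a₁ Q ≃[L] K.clOver f₂ a₂ Q)))
    (hD : D.Nonempty) (hmem : ∀ p ∈ D, K.Strong M p.1 ∧ p.2 ∈ K.Isos f₁ a₁ f₂ a₂ p.1)
    (hch : ∀ p ∈ D, ∀ q ∈ D, p.1 ≤ q.1 ∨ q.1 ≤ p.1)
    (hcoh : ∀ p ∈ D, ∀ q ∈ D, ∀ (x : K.clOver f₁ a₁ p.1) (y : K.clOver f₁ a₁ q.1),
      (x : N₁) = y → (p.2 x : N₂) = q.2 y) :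
    ∃ e ∈ K.Isos f₁ a₁ f₂ a₂ (sSup (Sigma.fst '' D)), ∀ p ∈ D, ∀ (x : K.clOver f₁ a₁ p.1)
      (y : K.clOver f₁ a₁ (sSup (Sigma.fst '' D))), (x : N₁) = y → (p.2 x : N₂) = e y := by
  classical
  have hCne : (Sigma.fst '' D).Nonempty := hD.image _
  have hCch : IsChain (· ≤ ·) (Sigma.fst '' D) := by
    rintro _ ⟨p, hp, rfl⟩ _ ⟨q, hq, rfl⟩ _
    exact hch p hp q hq
  have hCs : ∀ Q ∈ Sigma.fst '' D, K.Strong M Q := by
    rintro _ ⟨p, hp, rfl⟩
    exact (hmem p hp).1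
  have hle : ∀ p ∈ D, p.1 ≤ sSup (Sigma.fst '' D) := fun p hp => le_sSup ⟨p, hp, rfl⟩
  have hex : ∀ x : K.clOver f₁ a₁ (sSup (Sigma.fst '' D)), ∃ p ∈ D, (x : N₁) ∈ K.clOver f₁ a₁ p.1 := by
    intro x
    obtain ⟨_, ⟨p, hp, rfl⟩, hx⟩ := exists_mem_clOver_of_chain hK hf₁ _ hCne hCch hCs x.2
    exact ⟨p, hp, hx⟩
  have hfin : ∀ s : Finset (K.clOver f₁ a₁ (sSup (Sigma.fst '' D))),
      ∃ p ∈ D, ∀ x ∈ s, (x : N₁) ∈ K.clOver f₁ a₁ p.1 := by
    intro s
    induction s using Finset.induction_on with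
    | empty =>
      obtain ⟨p, hp⟩ := hD
      exact ⟨p, hp, by simp⟩
    | insert x s _ ih =>
      obtain ⟨p, hp, hps⟩ := ih
      obtain ⟨q, hq, hqx⟩ := hex x
      rcases hch p hp q hq with h | h
      · refine ⟨q, hq, fun y hy => ?_⟩
        rcases Finset.mem_insert.mp hy with rfl | hy
        · exact hqx
        · exact clOver_mono h (hps y hy)
      · refine ⟨p, hp, fun y hy => ?_⟩
        rcases Finset.mem_insert.mp hy with rfl | hy
        · exact clOver_mono h hqx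
        · exact hps y hy
  choose P hP hPx using hex
  let φ : K.clOver f₁ a₁ (sSup (Sigma.fst '' D)) → K.clOver f₂ a₂ (sSup (Sigma.fst '' D)) :=
    fun x => ⟨((P x).2 ⟨x, hPx x⟩ : K.clOver f₂ a₂ (P x).1),
      clOver_mono (hle _ (hP x)) ((P x).2 ⟨x, hPx x⟩).2⟩
  have hφ : ∀ p ∈ D, ∀ (x : K.clOver f₁ a₁ p.1) (y : K.clOver f₁ a₁ (sSup (Sigma.fst '' D))),
      (x : N₁) = y → (p.2 x : N₂) = φ y := by
    intro p hp x y hxy
    exact hcoh p hp (P y) (hP y) x ⟨y, hPx y⟩ hxy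
  have hinj : Function.Injective φ := by
    intro x y hxy
    have hxy' : (φ x : N₂) = φ y := congrArg Subtype.val hxy
    obtain ⟨p, hp, hs⟩ := hfin {x, y}
    have h1 := hφ p hp ⟨x, hs x (by simp)⟩ x rfl
    have h2 := hφ p hp ⟨y, hs y (by simp)⟩ y rfl
    have h3 : p.2 ⟨x, hs x (by simp)⟩ = p.2 ⟨y, hs y (by simp)⟩ :=
      Subtype.ext (by rw [h1, h2, hxy'])
    have h4 := p.2.injective h3
    exact Subtype.ext (congrArg (fun z : K.clOver f₁ a₁ p.1 => (z : N₁)) h4)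
  have hsurj : Function.Surjective φ := by
    intro y
    obtain ⟨_, ⟨p, hp, rfl⟩, hy⟩ := exists_mem_clOver_of_chain hK hf₂ _ hCne hCch hCs y.2
    refine ⟨⟨(p.2.symm ⟨y, hy⟩ : K.clOver f₁ a₁ p.1),
      clOver_mono (hle p hp) (p.2.symm ⟨y, hy⟩).2⟩, ?_⟩
    apply Subtype.ext
    rw [← hφ p hp (p.2.symm ⟨y, hy⟩) _ rfl, Language.Equiv.apply_symm_apply]
  refine ⟨⟨_root_.Equiv.ofBijective φ ⟨hinj, hsurj⟩, ?_, ?_⟩, ⟨?_, ?_⟩, ?_⟩
  · intro n F x
    obtain ⟨p, hp, hs⟩ := hfin (insert (Structure.funMap F x) (Finset.univ.image x))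
    have hx : ∀ i, x i ∈ insert (Structure.funMap F x) (Finset.univ.image x) := fun i =>
      Finset.mem_insert_of_mem (Finset.mem_image_of_mem _ (Finset.mem_univ i))
    let y : Fin n → K.clOver f₁ a₁ p.1 := fun i => ⟨x i, hs _ (hx i)⟩
    have h1 : ((Structure.funMap F y : K.clOver f₁ a₁ p.1) : N₁) =
        ((Structure.funMap F x : K.clOver f₁ a₁ (sSup (Sigma.fst '' D))) : N₁) := rfl
    have h2 := hφ p hp (Structure.funMap F y) _ h1
    have h3 : p.2 (Structure.funMap F y) = Structure.funMap F (p.2 ∘ y) := p.2.map_fun F y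
    apply Subtype.ext
    show (φ (Structure.funMap F x) : N₂) = _
    rw [← h2, h3]
    show Structure.funMap F (fun i => ((p.2 (y i) : K.clOver f₂ a₂ p.1) : N₂)) =
      Structure.funMap F (fun i => (φ (x i) : N₂))
    congr 1
    funext i
    exact hφ p hp (y i) (x i) rfl
  · intro n F x
    obtain ⟨p, hp, hs⟩ := hfin (Finset.univ.image x)
    let y : Fin n → K.clOver f₁ a₁ p.1 := fun i =>
      ⟨x i, hs _ (Finset.mem_image_of_mem _ (Finset.mem_univ i))⟩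
    have h3 : Structure.RelMap F (p.2 ∘ y) ↔ Structure.RelMap F y := p.2.map_rel F y
    have h4 : (fun i => ((p.2 (y i) : K.clOver f₂ a₂ p.1) : N₂)) = fun i => (φ (x i) : N₂) := by
      funext i
      exact hφ p hp (y i) (x i) rfl
    have h5 : Structure.RelMap F (fun i => ((p.2 (y i) : K.clOver f₂ a₂ p.1) : N₂)) ↔
        Structure.RelMap F (fun i => (x i : N₁)) := h3
    rw [h4] at h5
    exact h5
  · intro m hm x hx
    rw [Substructure.mem_sSup_of_directedOn hCne hCch.directedOn] at hm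
    obtain ⟨_, ⟨p, hp, rfl⟩, hmp⟩ := hm
    have h1 := hφ p hp ⟨f₁ m, mem_clOver_of_mem hmp⟩ x hx.symm
    have h2 := (hmem p hp).2.1 m hmp ⟨f₁ m, mem_clOver_of_mem hmp⟩ rfl
    show (φ x : N₂) = f₂ m
    rw [← h1, h2]
  · intro x hx
    obtain ⟨p, hp⟩ := hD
    have h1 := hφ p hp ⟨a₁, mem_clOver_base⟩ x hx.symm
    have h2 := (hmem p hp).2.2 ⟨a₁, mem_clOver_base⟩ rfl
    show (φ x : N₂) = a₂
    rw [← h1, h2]
  · exact hφ

end AEC

end Pool.Agent.H85.AECT
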