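import Pool.Agent.H85.WS.Wide

set_option autoImplicit false

/-!
# Many types over a small model contradict stability

PROOF of `not_stableIn_of_types`. Suppose `K` is stable in `μ`. Choose `J` a set of `μ` elements of
`ι` (as `μ < #ι`). For `b ∈ J` cut `G b` down to a strong substructure `D b` of size at most `μ`
containing the range of `V b` and `c b` (`ls_spec`); `V b` is a strong embedding into it. By
`exists_wide` (`B b = Q`, `h b = id`, `k b = V b`) there is `Q'` of size at most `μ` with strong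
embeddings `w : Q → Q'`, `g b : D b → Q'` over `Q`. The elements `g b (c b)` (`b ∈ J`) are pairwise
different, as otherwise two of the types would be equal (compose with the inclusion of `D b` into
`G b` : amalgamate, or note that `SameType` in `D b` gives `SameType` in `G b` by amalgamation); so
`#Q' = μ`. For every `b : ι` amalgamate `G b` and `Q'` over `Q` (`I.exist`): strong embeddings
`G b → G' b`, `V' b : Q' → G' b`; let `c' b` be the image of `c b`. If `(V' b, c' b)` and
`(V' b', c' b')` have the same type over `Q'` then `(V b, c b)` and `(V b', c b')` have the same type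
over `Q`. By stability in `μ` for `Q'` we get `b ≠ b'` with the same type, a contradiction.
-/

open FirstOrder FirstOrder.Language Cardinal

namespace Pool.Agent.H85.AECT

universe w

variable {L : FirstOrder.Language.{w, w}} {K : AEC L}

namespace AEC

private theorem strongEmb_refl {Q : Type w} [L.Structure Q] (hQ : K.Mem Q) :
    K.StrongEmb (Embedding.refl L Q) := by
  have h1 : (Embedding.refl L Q).toHom.range = ⊤ := by
    ext x
    simp only [Substructure.mem_top, iff_true]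
    exact ⟨x, rfl⟩
  unfold StrongEmb
  rw [h1]
  exact K.refl Q hQ

/-- Cut down a strong embedding to a small strong substructure. -/
private theorem cut_exists {μ : Cardinal.{w}} (hLS : K.LS ≤ μ) {Q G : Type w}
    [L.Structure Q] [L.Structure G] (hQc : #Q ≤ μ) (V : Q ↪[L] G) (hV : K.StrongEmb V) (c : G) :
    ∃ (D : L.Substructure G) (k : Q ↪[L] D) (d : D), K.Strong G D ∧ #D ≤ μ ∧ K.StrongEmb k ∧
      (∀ q, (k q : G) = V q) ∧ (d : G) = c := by
  have hμ : ℵ₀ ≤ μ := (ls_spec (K := K)).1.trans hLS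
  obtain ⟨D, hD, hA, hc⟩ := (ls_spec (K := K)).2.2 G hV.mem (insert c (Set.range V))
  have h1 : #(insert c (Set.range V) : Set G) ≤ μ := by
    refine Cardinal.mk_insert_le.trans ?_
    refine (add_le_add (Cardinal.mk_range_le.trans hQc) (Cardinal.one_le_aleph0.trans hμ)).trans ?_
    exact (Cardinal.add_eq_self hμ).le
  have hle : V.toHom.range ≤ D := by
    rintro _ ⟨q, rfl⟩
    exact hA (Set.mem_insert_of_mem _ ⟨q, rfl⟩)
  have hmem : ∀ q, V q ∈ D := fun q => hle ⟨q, rfl⟩
  refine ⟨D, V.codRestrict D hmem, ⟨c, hA (Set.mem_insert _ _)⟩, hD, ?_, ?_, fun q => rfl, rfl⟩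
  · refine hc.trans ((add_le_add h1 hLS).trans ?_)
    exact (Cardinal.add_eq_self hμ).le
  · have h2 := K.coherence G V.toHom.range D hV hD hle
    have h3 : V.toHom.range.comap D.subtype.toHom = (V.codRestrict D hmem).toHom.range := by
      ext x
      constructor
      · rintro ⟨q, hq⟩
        exact ⟨q, Subtype.ext hq⟩
      · rintro ⟨q, rfl⟩
        exact ⟨q, rfl⟩
    unfold StrongEmb
    rw [← h3]
    exact h2

namespace WeaklyStable

variable (I : K.WeaklyStable)

include I in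
private theorem amalg_exists {M N₁ N₂ : Type w} [L.Structure M] [L.Structure N₁] [L.Structure N₂]
    (f₁ : M ↪[L] N₁) (f₂ : M ↪[L] N₂) (hf₁ : K.StrongEmb f₁) (hf₂ : K.StrongEmb f₂) :
    ∃ (N : Type w) (_ : L.Structure N) (g₁ : N₁ ↪[L] N) (g₂ : N₂ ↪[L] N),
      K.StrongEmb g₁ ∧ K.StrongEmb g₂ ∧ ∀ m, g₁ (f₁ m) = g₂ (f₂ m) := by
  obtain ⟨N, hN, g₁, g₂, h₁, h₂, hg, _⟩ := I.exist M N₁ N₂ f₁ f₂ hf₁ hf₂
  exact ⟨N, hN, g₁, g₂, h₁, h₂, hg⟩

include I in
theorem not_stableIn_of_types {μ : Cardinal.{w}} (hLS : K.LS ≤ μ) {Q : Type w}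
    [L.Structure Q] (hQc : #Q ≤ μ) {ι : Type w} (hι : μ < #ι) (G : ι → Type w)
    [∀ b, L.Structure (G b)] (V : ∀ b, Q ↪[L] G b) (hV : ∀ b, K.StrongEmb (V b))
    (c : ∀ b, G b) (hne : ∀ b b', b ≠ b' → ¬ K.SameType (V b) (c b) (V b') (c b')) :
    ¬ K.StableIn μ := by
  intro hst
  obtain ⟨J, hJ⟩ := Cardinal.le_mk_iff_exists_set.mp hι.le
  have hιne : Nonempty ι := by
    rw [← Cardinal.mk_ne_zero_iff]
    exact (bot_lt_of_lt hι).ne'
  obtain ⟨b₀⟩ := hιne
  have hQ : K.Mem Q := (hV b₀).mem_left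
  choose D k d hD hDc hk hkV hd using fun b => cut_exists hLS hQc (V b) (hV b) (c b)
  obtain ⟨Q', hQ', u, g, hu, hg, hQ'c, hgk, -, -⟩ :=
    I.exists_wide hLS hQ hQc (J := J) hJ.le (fun _ => Q) (fun b => D b.1)
      (fun _ => Embedding.refl L Q) (fun b => k b.1) (fun _ => strongEmb_refl hQ)
      (fun b => hk b.1) (fun b => hDc b.1)
  have hgk' : ∀ (b : J) (q : Q), g b (k b.1 q) = u q := fun b q => hgk b q
  have hinj : Function.Injective (fun b : J => g b (d b.1)) := by
    intro b b' hbb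
    by_contra hcon
    have hcon' : b.1 ≠ b'.1 := fun h => hcon (Subtype.ext h)
    apply hne b.1 b'.1 hcon'
    obtain ⟨P₁, _, s₁, t₁, hs₁, ht₁, h1⟩ := I.amalg_exists (D b.1).subtype (g b)
      (strong_subtype (hD b.1)) (hg b)
    obtain ⟨P₂, hP₂, s₂, t₂, hs₂, ht₂, h2⟩ := I.amalg_exists (D b'.1).subtype (t₁.comp (g b'))
      (strong_subtype (hD b'.1)) (ht₁.comp (hg b'))
    have h1' : ∀ m : D b.1, s₁ (m : G b.1) = t₁ (g b m) := h1
    have h2' : ∀ m : D b'.1, s₂ (m : G b'.1) = t₂ (t₁ (g b' m)) := h2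
    refine ⟨P₂, hP₂, t₂.comp s₁, s₂, ht₂.comp hs₁, hs₂, ?_, ?_⟩
    · intro q
      show t₂ (s₁ (V b.1 q)) = s₂ (V b'.1 q)
      rw [← hkV b.1 q, ← hkV b'.1 q, h1', h2', hgk' b, hgk' b']
    · show t₂ (s₁ (c b.1)) = s₂ (c b'.1)
      rw [← hd b.1, ← hd b'.1, h1', h2']
      exact congrArg (fun x => t₂ (t₁ x)) hbb
  have hQ'μ : #Q' = μ := by
    apply le_antisymm hQ'c
    rw [← hJ]
    exact Cardinal.mk_le_of_injective hinj
  choose G' hG' r V' hr hV' hrV using fun b => I.amalg_exists (V b) u (hV b) hu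
  obtain ⟨i, j, hij, N, hN, g₁, g₂, hg₁, hg₂, hm, ha⟩ :=
    hst Q' hu.mem hQ'μ ι G' V' (fun b => r b (c b)) hV' hι
  apply hne i j hij
  refine ⟨N, hN, g₁.comp (r i), g₂.comp (r j), hg₁.comp (hr i), hg₂.comp (hr j), ?_, ha⟩
  intro q
  show g₁ (r i (V i q)) = g₂ (r j (V j q))
  rw [hrV i, hrV j]
  exact hm (u q)

end WeaklyStable

end AEC

end Pool.Agent.H85.AECT
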