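import Pool.Agent.H85.WS.Defs

set_option autoImplicit false

/-!
# Structures on subsets of a fixed set

`Pt K X` is the type of members of the class whose universe is a subset of the fixed type `X`.
`Pt.Le p q`: `p` is a strong substructure of `q` (the inclusion is a strong embedding).

PROOF of `exists_sup`. Put a structure on `S = ⋃ p ∈ C, p.S`: finitely many elements of `S` lie in
one `p ∈ C` (chain); take the function values and relations in that `p`; this does not depend on
`p`, as the inclusions are embeddings. All inclusions `p.S → S` are embeddings; their ranges form a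
chain of substructures with union everything, and for `Le p q` the range of `p` is strong in that
of `q`; so they are strong by the axiom `K.chain` (which also gives membership). (Alternatively use
`FirstOrder.Language.DirectLimit` over the index type `C` and transport the structure to `S`.)

PROOF of `exists_copy`. `#(Xᶜ of p.S) = #X` as `#p.S ≤ #Q < #X`; choose an injection of the
complement of the range of `f` in `Q` into the complement of `p.S` in `X` and glue it with `f⁻¹` to an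
injection `Q → X`; let `q.S` be its range with the transported structure
(`Equiv.inducedStructure`).

PROOF of `exists_init`. Choose an injection `Q → X` and transport the structure to its range.
-/

open FirstOrder FirstOrder.Language Cardinal

namespace Pool.Agent.H85.AECT

universe w

variable {L : FirstOrder.Language.{w, w}}

namespace AEC

/-- Members of the class with universe a subset of `X`. -/
structure Pt (K : AEC L) (X : Type w) where
  /-- the universe -/
  S : Set X
  /-- the structure -/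
  [str : L.Structure S]
  /-- it belongs to the class -/
  mem : K.Mem S

attribute [instance] Pt.str

variable {K : AEC L} {X : Type w}

namespace Pt

/-- `p` is a strong substructure of `q`. -/
def Le (p q : K.Pt X) : Prop :=
  ∃ f : p.S ↪[L] q.S, K.StrongEmb f ∧ ∀ x, (f x : X) = x

theorem Le.rfl' (p : K.Pt X) : Le p p :=
  ⟨(Language.Equiv.refl L p.S).toEmbedding, strongEmb_equiv _ p.mem, fun _ => rfl⟩

theorem Le.trans' {p q r : K.Pt X} (h1 : Le p q) (h2 : Le q r) : Le p r := by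
  obtain ⟨f, hf, hfx⟩ := h1
  obtain ⟨g, hg, hgx⟩ := h2
  refine ⟨g.comp f, hg.comp hf, fun x => ?_⟩
  rw [Embedding.comp_apply, hgx, hfx]

private theorem Le.subset {p q : K.Pt X} (h : Le p q) : p.S ⊆ q.S := by
  obtain ⟨f, -, hf⟩ := h
  intro x hx
  have h1 := hf ⟨x, hx⟩
  rw [← show ((f ⟨x, hx⟩ : q.S) : X) = x from h1]
  exact (f ⟨x, hx⟩).2

private theorem Le.funMap_eq {p q : K.Pt X} (h : Le p q) {n : ℕ} (F : L.Functions n)
    (x : Fin n → X) (hp : ∀ i, x i ∈ p.S) (hq : ∀ i, x i ∈ q.S) :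
    ((Structure.funMap F (fun i => (⟨x i, hp i⟩ : p.S)) : p.S) : X) =
      ((Structure.funMap F (fun i => (⟨x i, hq i⟩ : q.S)) : q.S) : X) := by
  obtain ⟨f, -, hf⟩ := h
  have h1 := f.map_fun F (fun i => (⟨x i, hp i⟩ : p.S))
  have h2 : (f ∘ fun i => (⟨x i, hp i⟩ : p.S)) = fun i => (⟨x i, hq i⟩ : q.S) := by
    funext i
    exact Subtype.ext (hf _)
  rw [h2] at h1
  rw [← h1, hf]

private theorem Le.relMap_iff {p q : K.Pt X} (h : Le p q) {n : ℕ} (R : L.Relations n)
    (x : Fin n → X) (hp : ∀ i, x i ∈ p.S) (hq : ∀ i, x i ∈ q.S) :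
    Structure.RelMap R (fun i => (⟨x i, hp i⟩ : p.S)) ↔
      Structure.RelMap R (fun i => (⟨x i, hq i⟩ : q.S)) := by
  obtain ⟨f, -, hf⟩ := h
  have h1 := f.map_rel R (fun i => (⟨x i, hp i⟩ : p.S))
  have h2 : (f ∘ fun i => (⟨x i, hp i⟩ : p.S)) = fun i => (⟨x i, hq i⟩ : q.S) := by
    funext i
    exact Subtype.ext (hf _)
  rw [h2] at h1
  exact h1.symm

private theorem exists_mem_of_tuple {C : Set (K.Pt X)} (hC : C.Nonempty)
    (hch : ∀ p ∈ C, ∀ q ∈ C, Le p q ∨ Le q p) {n : ℕ} (x : Fin n → ⋃ p ∈ C, p.S) :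
    ∃ p ∈ C, ∀ i, (x i : X) ∈ p.S := by
  classical
  have hd : DirectedOn (fun p q : K.Pt X => p.S ⊆ q.S) C := by
    intro p hp q hq
    rcases hch p hp q hq with h | h
    · exact ⟨q, hq, h.subset, subset_rfl⟩
    · exact ⟨p, hp, subset_rfl, h.subset⟩
  obtain ⟨p, hp, hs⟩ := DirectedOn.exists_mem_subset_of_finset_subset_biUnion
    (f := fun p : K.Pt X => p.S) hC hd
    (s := Finset.univ.image fun i => (x i : X)) (by
      intro y hy
      rw [Finset.coe_image] at hy
      obtain ⟨i, -, rfl⟩ := hy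
      exact (x i).2)
  refine ⟨p, hp, fun i => hs ?_⟩
  rw [Finset.coe_image]
  exact ⟨i, Finset.mem_coe.2 (Finset.mem_univ i), rfl⟩

/-- the structure on the union of a chain -/
private theorem exists_structure {C : Set (K.Pt X)} (hC : C.Nonempty)
    (hch : ∀ p ∈ C, ∀ q ∈ C, Le p q ∨ Le q p) :
    ∃ _ : L.Structure (⋃ p ∈ C, p.S : Set X), ∀ p ∈ C,
      ∃ f : p.S ↪[L] (⋃ p ∈ C, p.S : Set X), ∀ x, (f x : X) = x := by
  classical
  choose ch hmem hin using fun (n : ℕ) (x : Fin n → (⋃ p ∈ C, p.S : Set X)) =>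
    exists_mem_of_tuple hC hch x
  let str : L.Structure (⋃ p ∈ C, p.S : Set X) :=
    { funMap := fun {n} F x =>
        ⟨((Structure.funMap F (fun i => (⟨x i, hin n x i⟩ : (ch n x).S)) : (ch n x).S) : X),
          Set.mem_biUnion (hmem n x) (Subtype.coe_prop _)⟩
      RelMap := fun {n} R x => Structure.RelMap R (fun i => (⟨x i, hin n x i⟩ : (ch n x).S)) }
  refine ⟨str, fun p hp => ?_⟩
  have hf : ∀ {n : ℕ} (F : L.Functions n) (x : Fin n → (⋃ p ∈ C, p.S : Set X))
      (hx : ∀ i, (x i : X) ∈ p.S),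
      ((Structure.funMap F (fun i => (⟨x i, hin n x i⟩ : (ch n x).S)) : (ch n x).S) : X) =
        ((Structure.funMap F (fun i => (⟨x i, hx i⟩ : p.S)) : p.S) : X) := by
    intro n F x hx
    rcases hch _ (hmem n x) p hp with h | h
    · exact h.funMap_eq F (fun i => (x i : X)) _ _
    · exact (h.funMap_eq F (fun i => (x i : X)) _ _).symm
  have hr : ∀ {n : ℕ} (R : L.Relations n) (x : Fin n → (⋃ p ∈ C, p.S : Set X))
      (hx : ∀ i, (x i : X) ∈ p.S),
      Structure.RelMap R (fun i => (⟨x i, hin n x i⟩ : (ch n x).S)) ↔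
        Structure.RelMap R (fun i => (⟨x i, hx i⟩ : p.S)) := by
    intro n R x hx
    rcases hch _ (hmem n x) p hp with h | h
    · exact h.relMap_iff R (fun i => (x i : X)) _ _
    · exact (h.relMap_iff R (fun i => (x i : X)) _ _).symm
  refine ⟨⟨⟨fun x => ⟨x, Set.mem_biUnion hp x.2⟩, ?_⟩, ?_, ?_⟩, fun _ => rfl⟩
  · intro x y hxy
    exact Subtype.ext (congrArg (fun z : (⋃ p ∈ C, p.S : Set X) => (z : X)) hxy)
  · intro n F x
    exact Subtype.ext (hf F (fun i => ⟨x i, Set.mem_biUnion hp (x i).2⟩) fun i => (x i).2).symm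
  · intro n R x
    exact hr R (fun i => ⟨x i, Set.mem_biUnion hp (x i).2⟩) fun i => (x i).2

theorem exists_sup {C : Set (K.Pt X)} (hC : C.Nonempty)
    (hch : ∀ p ∈ C, ∀ q ∈ C, Le p q ∨ Le q p) :
    ∃ u : K.Pt X, u.S = ⋃ p ∈ C, p.S ∧ ∀ p ∈ C, Le p u := by
  classical
  obtain ⟨str, hstr⟩ := exists_structure hC hch
  choose f hf using hstr
  have hmr : ∀ p (hp : p ∈ C) (y : (⋃ p ∈ C, p.S : Set X)),
      y ∈ (f p hp).toHom.range ↔ (y : X) ∈ p.S := by
    intro p hp y
    constructor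
    · rintro ⟨x, rfl⟩
      have h1 : (((f p hp).toHom x : (⋃ p ∈ C, p.S : Set X)) : X) = x := hf p hp x
      rw [h1]
      exact x.2
    · intro hy
      exact ⟨⟨y, hy⟩, Subtype.ext (hf p hp _)⟩
  let D : Set (L.Substructure (⋃ p ∈ C, p.S : Set X)) :=
    {M | ∃ (p : K.Pt X) (hp : p ∈ C), M = (f p hp).toHom.range}
  have hD : D.Nonempty := by
    obtain ⟨p, hp⟩ := hC
    exact ⟨_, p, hp, rfl⟩
  have hle : ∀ p (hp : p ∈ C) q (hq : q ∈ C), p.S ⊆ q.S →
      (f p hp).toHom.range ≤ (f q hq).toHom.range := by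
    intro p hp q hq h y hy
    rw [hmr] at hy ⊢
    exact h hy
  have hDch : IsChain (· ≤ ·) D := by
    rintro _ ⟨p, hp, rfl⟩ _ ⟨q, hq, rfl⟩ -
    rcases hch p hp q hq with h | h
    · exact Or.inl (hle p hp q hq h.subset)
    · exact Or.inr (hle q hq p hp h.subset)
  have hDtop : sSup D = ⊤ := by
    rw [eq_top_iff]
    intro y _
    obtain ⟨p, hp, hy⟩ := Set.mem_iUnion₂.1 y.2
    exact (le_sSup ⟨p, hp, rfl⟩ : (f p hp).toHom.range ≤ sSup D) ((hmr p hp y).2 hy)
  have hDs : ∀ P ∈ D, ∀ M ∈ D, P ≤ M → K.Strong M (P.comap M.subtype.toHom) := by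
    rintro _ ⟨p, hp, rfl⟩ _ ⟨q, hq, rfl⟩ hPM
    have hsub : p.S ⊆ q.S := by
      intro x hx
      have h1 := hPM ((hmr p hp ⟨x, Set.mem_biUnion hp hx⟩).2 hx)
      exact (hmr q hq _).1 h1
    rcases hch p hp q hq with h | h
    · obtain ⟨g, hg, hgx⟩ := h
      have h2 := K.iso _ _ (f q hq).equivRange _ hg
      have h3 : g.toHom.range.map (f q hq).equivRange.toHom =
          (f p hp).toHom.range.comap (f q hq).toHom.range.subtype.toHom := by
        ext y
        constructor
        · rintro ⟨_, ⟨x, rfl⟩, rfl⟩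
          rw [Substructure.mem_comap, hmr]
          show (((f q hq) (g x) : (⋃ p ∈ C, p.S : Set X)) : X) ∈ p.S
          rw [hf, hgx]
          exact x.2
        · intro hy
          rw [Substructure.mem_comap, hmr] at hy
          refine ⟨g ⟨((y : (⋃ p ∈ C, p.S : Set X)) : X), hy⟩, ⟨_, rfl⟩, ?_⟩
          apply Subtype.ext
          apply Subtype.ext
          show (((f q hq) (g _) : (⋃ p ∈ C, p.S : Set X)) : X) = _
          rw [hf, hgx]
      rwa [h3] at h2
    · have h4 : (f p hp).toHom.range.comap (f q hq).toHom.range.subtype.toHom = ⊤ := by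
        rw [eq_top_iff]
        intro y _
        rw [Substructure.mem_comap, hmr]
        exact h.subset ((hmr q hq _).1 y.2)
      rw [h4]
      exact K.refl _ (mem_iso (f q hq).equivRange q.mem)
  have hmain := K.chain _ D hD hDch hDtop hDs
  have hmem : K.Mem (⋃ p ∈ C, p.S : Set X) := by
    obtain ⟨M, hM⟩ := hD
    exact (K.mem_of_strong _ _ (hmain M hM)).1
  refine ⟨⟨_, hmem⟩, rfl, fun p hp => ⟨f p hp, hmain _ ⟨p, hp, rfl⟩, hf p hp⟩⟩

private theorem exists_of_inj {Q : Type w} [L.Structure Q] (hQ : K.Mem Q) (i : Q → X)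
    (hi : Function.Injective i) : ∃ (q : K.Pt X) (e : Q ≃[L] q.S), ∀ x, (e x : X) = i x := by
  let _ : L.Structure (Set.range i) := (Equiv.ofInjective i hi).inducedStructure
  let E : Q ≃[L] Set.range i := (Equiv.ofInjective i hi).inducedStructureEquiv
  exact ⟨⟨Set.range i, mem_iso E hQ⟩, E, fun _ => rfl⟩

theorem exists_copy (p : K.Pt X) {Q : Type w} [L.Structure Q] (f : p.S ↪[L] Q)
    (hf : K.StrongEmb f) (hc : #Q < #X) (hX : ℵ₀ ≤ #X) :
    ∃ (q : K.Pt X) (e : Q ≃[L] q.S), Le p q ∧ ∀ x : p.S, (e (f x) : X) = x := by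
  classical
  have : Infinite X := Cardinal.infinite_iff.2 hX
  have h1 : #p.S < #X := (Cardinal.mk_le_of_injective f.injective).trans_lt hc
  have h2 : #(p.Sᶜ : Set X) = #X := Cardinal.mk_compl_of_infinite p.S h1
  have h3 : #((Set.range f)ᶜ : Set Q) ≤ #(p.Sᶜ : Set X) := by
    rw [h2]
    exact (Cardinal.mk_set_le _).trans hc.le
  obtain ⟨j⟩ : Nonempty (((Set.range f)ᶜ : Set Q) ↪ (p.Sᶜ : Set X)) := h3
  let i : Q → X := fun q => if h : ∃ x, f x = q then ((h.choose : p.S) : X) else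
    ((j ⟨q, fun ⟨x, hx⟩ => h ⟨x, hx⟩⟩ : (p.Sᶜ : Set X)) : X)
  have hi1 : ∀ x, i (f x) = x := by
    intro x
    have h : ∃ y, f y = f x := ⟨x, rfl⟩
    have h4 : i (f x) = ((h.choose : p.S) : X) := dif_pos h
    rw [h4, f.injective h.choose_spec]
  have hi2 : ∀ q (h : ¬ ∃ x, f x = q), i q =
      ((j ⟨q, fun ⟨x, hx⟩ => h ⟨x, hx⟩⟩ : (p.Sᶜ : Set X)) : X) := by
    intro q h
    exact dif_neg h
  have hi : Function.Injective i := by
    intro a b hab
    by_cases ha : ∃ x, f x = a
    · obtain ⟨x, rfl⟩ := ha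
      by_cases hb : ∃ y, f y = b
      · obtain ⟨y, rfl⟩ := hb
        rw [hi1, hi1] at hab
        rw [Subtype.ext hab]
      · rw [hi1, hi2 b hb] at hab
        exact absurd x.2 (by rw [hab]; exact (j _).2)
    · by_cases hb : ∃ y, f y = b
      · obtain ⟨y, rfl⟩ := hb
        rw [hi1, hi2 a ha] at hab
        exact absurd y.2 (by rw [← hab]; exact (j _).2)
      · rw [hi2 a ha, hi2 b hb] at hab
        have h5 := j.injective (Subtype.ext hab)
        exact congrArg Subtype.val h5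
  obtain ⟨q, e, he⟩ := exists_of_inj hf.mem i hi
  refine ⟨q, e, ⟨e.toEmbedding.comp f, (strongEmb_equiv e hf.mem).comp hf, fun x => ?_⟩,
    fun x => ?_⟩
  · show (e (f x) : X) = x
    rw [he, hi1]
  · rw [he, hi1]

theorem exists_init {Q : Type w} [L.Structure Q] (hQ : K.Mem Q) (hc : #Q ≤ #X) :
    ∃ p : K.Pt X, Nonempty (Q ≃[L] p.S) := by
  obtain ⟨i⟩ : Nonempty (Q ↪ X) := hc
  obtain ⟨q, e, -⟩ := exists_of_inj hQ i i.injective
  exact ⟨q, ⟨e⟩⟩

end Pt

end AEC

end Pool.Agent.H85.AECT
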