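import Pool.Agent.H85.WS.Mono
import Pool.Agent.H85.WS.Pt

set_option autoImplicit false

/-!
# Independent amalgams of families

PROOF of `exists_wide`. Let `X` be a type with `#X > μ` (e.g. a type of cardinality `succ μ`), `p₀` a
point of `K.Pt X` with an isomorphism `e₀ : Q ≃ p₀.S` (`Pt.exists_init`), and fix a well-order of
`J`.

One step (`step_exists`): for `p : K.Pt X` with `#p.S ≤ μ`, `Le p₀ p` (with inclusion `ι`) and `j : J`
there are `q` with `Le p q`, `#q.S ≤ μ` and a strong embedding `g : D j → q.S` with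
`g (k j x) = e₀ (h j x)` (in `X`) such that `g (D j)` and `p.S` are independent over the image of
`B j` in `q.S`: take an independent amalgam of `D j` and `p.S` over `B j` (`I.exist` for `k j` and
`ι ∘ e₀ ∘ h j`), cut it down by the Löwenheim-Skolem axiom (`ls_spec`) to a strong substructure of
size at most `μ` containing both images (use `I.inv` along its inclusion, and `StrongEmb.comap` /
coherence), and apply `Pt.exists_copy`.

Transfinite recursion: by `WellFounded.fix` define `p j : K.Pt X` by choosing (`Classical.choose`) an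
upper bound `p' j` (`Pt.exists_sup`) of `p₀` and all `p i`, `i < j`, and then the point `p j` given by
the step for `p' j` and `j` (if the hypotheses hold, `p₀` otherwise). By well-founded induction on `j`:
`Le (p i) (p j)` for all `i < j`, `Le p₀ (p j)` and `#(p j).S ≤ μ` (a union of at most `μ` sets of
size at most `μ`). Let `Q'` be an upper bound of `p₀` and all `p j` (with universe the union), so
`#Q' ≤ μ`; push the embeddings `g j` and all independences to `Q'` by `I.inv`. For `i < j` take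
`E` = the image of `p' j` in `Q'`: it contains the image of `p i`, so `g i (D i)`, and that of `p₀`.
-/

open FirstOrder FirstOrder.Language Cardinal

namespace Pool.Agent.H85.AECT

universe w

variable {L : FirstOrder.Language.{w, w}} {K : AEC L}

namespace AEC

namespace WeaklyStable

variable (I : K.WeaklyStable)

private theorem mem_rng {M N : Type w} [L.Structure M] [L.Structure N] (f : M ↪[L] N) (z : N) :
    z ∈ f.toHom.range ↔ ∃ x, f x = z := by
  rw [Hom.mem_range]
  rfl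

private theorem map_rng {M N P : Type w} [L.Structure M] [L.Structure N] [L.Structure P]
    (g : N ↪[L] P) (f : M ↪[L] N) :
    f.toHom.range.map g.toHom = (g.comp f).toHom.range := by
  rw [← Hom.range_comp]
  congr 1

private theorem rng_congr {M N : Type w} [L.Structure M] [L.Structure N] {f g : M ↪[L] N}
    (h : ∀ x, f x = g x) : f.toHom.range = g.toHom.range := by
  have : f = g := Embedding.ext h
  rw [this]

private theorem strong_cod {A N : Type w} [L.Structure A] [L.Structure N] {M : L.Substructure N}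
    (hM : K.Strong N M) (f : A ↪[L] M) (hf : K.StrongEmb (M.subtype.comp f)) :
    K.StrongEmb f := by
  have h1 : (M.subtype.comp f).toHom.range ≤ M := by
    intro z hz
    obtain ⟨x, rfl⟩ := (mem_rng _ _).1 hz
    exact (f x).2
  have h2 := K.coherence _ _ _ hf hM h1
  have h3 : (M.subtype.comp f).toHom.range.comap M.subtype.toHom = f.toHom.range := by
    ext z
    rw [mem_rng]
    constructor
    · intro hz
      obtain ⟨x, hx⟩ := (mem_rng _ _).1 (show M.subtype z ∈ (M.subtype.comp f).toHom.range from hz)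
      exact ⟨x, Subtype.ext hx⟩
    · rintro ⟨x, rfl⟩
      exact (mem_rng _ _).2 ⟨x, rfl⟩
  rw [h3] at h2
  exact h2

theorem step_exists {μ : Cardinal.{w}} (hLS : K.LS ≤ μ) {X : Type w} (hX : μ < #X)
    (p : K.Pt X) (hp : #p.S ≤ μ) {B D : Type w} [L.Structure B] [L.Structure D]
    (h : B ↪[L] p.S) (k : B ↪[L] D) (hh : K.StrongEmb h) (hk : K.StrongEmb k) (hD : #D ≤ μ) :
    ∃ (q : K.Pt X) (ι : p.S ↪[L] q.S) (g : D ↪[L] q.S), K.StrongEmb ι ∧
      (∀ x, (ι x : X) = x) ∧ K.StrongEmb g ∧ #q.S ≤ μ ∧ (∀ b, g (k b) = ι (h b)) ∧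
      I.Ind q.S (h.toHom.range.map ι.toHom) g.toHom.range ι.toHom.range := by
  obtain ⟨N, hN, g₁, g₂, hg₁, hg₂, hm, hI⟩ := I.exist B D p.S k h hk hh
  have hμ : ℵ₀ ≤ μ := (ls_spec (K := K)).1.trans hLS
  obtain ⟨M, hM, hA, hMc⟩ := (ls_spec (K := K)).2.2 N hg₁.mem (Set.range g₁ ∪ Set.range g₂)
  have hMμ : #M ≤ μ := by
    refine hMc.trans ?_
    have h1 : #(↑(Set.range g₁ ∪ Set.range g₂) : Set N) ≤ μ + μ :=
      (Cardinal.mk_union_le _ _).trans (add_le_add (Cardinal.mk_range_le.trans hD)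
        (Cardinal.mk_range_le.trans hp))
    rw [Cardinal.add_eq_self hμ] at h1
    exact (add_le_add h1 hLS).trans (Cardinal.add_eq_self hμ).le
  have c1 : ∀ x, g₁ x ∈ M := fun x => hA (Or.inl ⟨x, rfl⟩)
  have c2 : ∀ x, g₂ x ∈ M := fun x => hA (Or.inr ⟨x, rfl⟩)
  have e1 : M.subtype.comp (Embedding.codRestrict M g₁ c1) = g₁ :=
    Embedding.subtype_comp_codRestrict _ _ _
  have e2 : M.subtype.comp (Embedding.codRestrict M g₂ c2) = g₂ :=
    Embedding.subtype_comp_codRestrict _ _ _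
  have hs1 : K.StrongEmb (Embedding.codRestrict M g₁ c1) := strong_cod hM _ (by rw [e1]; exact hg₁)
  have hs2 : K.StrongEmb (Embedding.codRestrict M g₂ c2) := strong_cod hM _ (by rw [e2]; exact hg₂)
  have hI' : I.Ind M ((Embedding.codRestrict M g₁ c1).comp k).toHom.range
      (Embedding.codRestrict M g₁ c1).toHom.range
      (Embedding.codRestrict M g₂ c2).toHom.range := by
    refine (I.inv M N M.subtype (strong_subtype hM) _ _ _).mpr ?_
    rw [map_rng, map_rng, map_rng, e1, e2]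
    have e3 : (M.subtype.comp ((Embedding.codRestrict M g₁ c1).comp k)).toHom.range =
        (g₁.comp k).toHom.range := rng_congr fun x => rfl
    rw [e3]
    exact hI
  obtain ⟨q, e, -, he⟩ := Pt.exists_copy p (Embedding.codRestrict M g₂ c2) hs2
    (hMμ.trans_lt hX) (hμ.trans hX.le)
  have hE : K.StrongEmb e.toEmbedding := strongEmb_equiv e (K.mem_of_strong _ _ hM).2
  refine ⟨q, e.toEmbedding.comp (Embedding.codRestrict M g₂ c2),
    e.toEmbedding.comp (Embedding.codRestrict M g₁ c1), hE.comp hs2, he, hE.comp hs1,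
    (Cardinal.mk_congr e.toEquiv).symm.le.trans hMμ, ?_, ?_⟩
  · intro b
    show e (Embedding.codRestrict M g₁ c1 (k b)) = e (Embedding.codRestrict M g₂ c2 (h b))
    congr 1
    exact Subtype.ext (hm b)
  · have h4 := (I.inv M q.S e.toEmbedding hE _ _ _).mp hI'
    rw [map_rng, map_rng, map_rng] at h4
    rw [map_rng]
    have e4 : ((e.toEmbedding.comp (Embedding.codRestrict M g₂ c2)).comp h).toHom.range =
        (e.toEmbedding.comp ((Embedding.codRestrict M g₁ c1).comp k)).toHom.range := by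
      refine rng_congr fun b => ?_
      show e (Embedding.codRestrict M g₂ c2 (h b)) = e (Embedding.codRestrict M g₁ c1 (k b))
      congr 1
      exact Subtype.ext (hm b).symm
    rw [e4]
    exact h4

/-- transfinite recursion with a choice at every step -/
private theorem rec_choose {J : Type*} [LinearOrder J] [WellFoundedLT J] {α : Type*} [Nonempty α]
    (S : ∀ j : J, (∀ i, i < j → α) → α → Prop) :
    ∃ p : J → α, ∀ j, (∃ q, S j (fun i _ => p i) q) → S j (fun i _ => p i) (p j) := by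
  classical
  let F : ∀ j : J, (∀ i, i < j → α) → α := fun j prev =>
    if h : ∃ q, S j prev q then h.choose else Classical.arbitrary α
  refine ⟨(wellFounded_lt (α := J)).fix F, fun j hj => ?_⟩
  have e : (wellFounded_lt (α := J)).fix F j = hj.choose := by
    rw [WellFounded.fix_eq]
    exact dif_pos hj
  rw [e]
  exact hj.choose_spec

/-- an upper bound of a family of points -/
private theorem sup_family {X J : Type w} [LinearOrder J] {μ : Cardinal.{w}} (hμ : ℵ₀ ≤ μ)
    (hJ : #J ≤ μ) (p₀ : K.Pt X) (h0 : #p₀.S ≤ μ) (p : J → K.Pt X) (s : Set J)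
    (hs : ∀ i ∈ s, #(p i).S ≤ μ ∧ Pt.Le p₀ (p i) ∧ ∀ i' < i, Pt.Le (p i') (p i)) :
    ∃ u : K.Pt X, #u.S ≤ μ ∧ Pt.Le p₀ u ∧ ∀ i ∈ s, Pt.Le (p i) u := by
  obtain ⟨u, hu, hle⟩ := Pt.exists_sup (C := insert p₀ (p '' s)) ⟨p₀, Set.mem_insert _ _⟩ (by
    rintro a (rfl | ⟨i, hi, rfl⟩) b (rfl | ⟨i', hi', rfl⟩)
    · exact Or.inl (Pt.Le.rfl' _)
    · exact Or.inl (hs i' hi').2.1
    · exact Or.inr (hs i hi).2.1
    · rcases lt_trichotomy i i' with h | h | h
      · exact Or.inl ((hs i' hi').2.2 i h)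
      · rw [h]
        exact Or.inl (Pt.Le.rfl' _)
      · exact Or.inr ((hs i hi).2.2 i' h))
  refine ⟨u, ?_, hle _ (Set.mem_insert _ _),
    fun i hi => hle _ (Set.mem_insert_of_mem _ ⟨i, hi, rfl⟩)⟩
  have hone : (1 : Cardinal.{w}) ≤ μ := Cardinal.one_le_aleph0.trans hμ
  have hC : #(insert p₀ (p '' s) : Set (K.Pt X)) ≤ μ := by
    refine Cardinal.mk_insert_le.trans ?_
    refine (add_le_add (Cardinal.mk_image_le.trans ((Cardinal.mk_set_le s).trans hJ)) hone).trans ?_
    exact (Cardinal.add_eq_self hμ).le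
  have hsup : (⨆ x : (insert p₀ (p '' s) : Set (K.Pt X)), #x.1.S) ≤ μ := by
    refine ciSup_le' fun x => ?_
    obtain ⟨x, rfl | ⟨i, hi, rfl⟩⟩ := x
    · exact h0
    · exact (hs i hi).1
  have hkey : #(⋃ q ∈ (insert p₀ (p '' s) : Set (K.Pt X)), q.S) ≤ μ := by
    refine (Cardinal.mk_biUnion_le _ _).trans ?_
    exact (mul_le_mul' hC hsup).trans (Cardinal.mul_eq_self hμ).le
  have hu' : #u.S = #(⋃ q ∈ (insert p₀ (p '' s) : Set (K.Pt X)), q.S) :=
    Cardinal.mk_congr (Equiv.setCongr hu)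
  rw [hu']
  exact hkey

/-- the point `q` is a good choice for `j` -/
private def Good (μ : Cardinal.{w}) {X Q J : Type w} [L.Structure Q] [LinearOrder J]
    {B D : J → Type w} [∀ j, L.Structure (B j)] [∀ j, L.Structure (D j)] (p₀ : K.Pt X)
    (e₀ : Q ≃[L] p₀.S) (h : ∀ j, B j ↪[L] Q) (k : ∀ j, B j ↪[L] D j) (j : J)
    (prev : ∀ i, i < j → K.Pt X) (q : K.Pt X) : Prop :=
  #q.S ≤ μ ∧ Pt.Le p₀ q ∧ (∀ i (hi : i < j), Pt.Le (prev i hi) q) ∧
    ∃ (p' : K.Pt X) (ι : p'.S ↪[L] q.S) (g : D j ↪[L] q.S), Pt.Le p₀ p' ∧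
      (∀ i (hi : i < j), Pt.Le (prev i hi) p') ∧ K.StrongEmb ι ∧ (∀ x, (ι x : X) = x) ∧
      K.StrongEmb g ∧ (∀ b, (g (k j b) : X) = e₀ (h j b)) ∧
      I.Ind q.S (g.comp (k j)).toHom.range g.toHom.range ι.toHom.range

theorem exists_wide {μ : Cardinal.{w}} (hLS : K.LS ≤ μ) {Q : Type w} [L.Structure Q]
    (hQ : K.Mem Q) (hQc : #Q ≤ μ) {J : Type w} (hJ : #J ≤ μ) (B D : J → Type w)
    [∀ j, L.Structure (B j)] [∀ j, L.Structure (D j)] (h : ∀ j, B j ↪[L] Q)
    (k : ∀ j, B j ↪[L] D j) (hh : ∀ j, K.StrongEmb (h j)) (hk : ∀ j, K.StrongEmb (k j))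
    (hD : ∀ j, #(D j) ≤ μ) :
    ∃ (Q' : Type w) (_ : L.Structure Q') (u : Q ↪[L] Q') (g : ∀ j, D j ↪[L] Q'),
      K.StrongEmb u ∧ (∀ j, K.StrongEmb (g j)) ∧ #Q' ≤ μ ∧
      (∀ j b, g j (k j b) = u (h j b)) ∧
      (∀ j, I.Ind Q' ((h j).toHom.range.map u.toHom) (g j).toHom.range u.toHom.range) ∧
      ∀ i j, i ≠ j → ∃ E : L.Substructure Q',
        ((g i).toHom.range ≤ E ∧
          I.Ind Q' ((h j).toHom.range.map u.toHom) (g j).toHom.range E) ∨
        ((g j).toHom.range ≤ E ∧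
          I.Ind Q' ((h i).toHom.range.map u.toHom) (g i).toHom.range E) := by
  classical
  have hμ : ℵ₀ ≤ μ := (ls_spec (K := K)).1.trans hLS
  obtain ⟨X, hX⟩ : ∃ X : Type w, μ < #X :=
    ⟨(Order.succ μ).out, by rw [Cardinal.mk_out]; exact Order.lt_succ μ⟩
  obtain ⟨p₀, ⟨e₀⟩⟩ := Pt.exists_init (K := K) hQ (hQc.trans hX.le)
  have h0c : #p₀.S ≤ μ := (Cardinal.mk_congr e₀.toEquiv).symm.le.trans hQc
  have he₀ : K.StrongEmb e₀.toEmbedding := strongEmb_equiv e₀ hQ
  obtain ⟨lo, wf⟩ := exists_wellFoundedLT J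
  have : Nonempty (K.Pt X) := ⟨p₀⟩
  obtain ⟨p, hp⟩ := rec_choose (J := J) (α := K.Pt X) (Good I μ p₀ e₀ h k)
  have hall : ∀ j, Good I μ p₀ e₀ h k j (fun i _ => p i) (p j) := by
    intro j
    induction j using (wellFounded_lt (α := J)).induction with
    | _ j ih =>
      apply hp
      obtain ⟨u₁, hu₁c, hu₁0, hu₁⟩ := sup_family hμ hJ p₀ h0c p {i | i < j} (fun i hi =>
        ⟨(ih i hi).1, (ih i hi).2.1, (ih i hi).2.2.1⟩)
      obtain ⟨f₀, hf₀, hf₀x⟩ := hu₁0
      obtain ⟨q, ι, g, hι, hιx, hg, hqc, hgk, hI⟩ := I.step_exists hLS hX u₁ hu₁c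
        (f₀.comp (e₀.toEmbedding.comp (h j))) (k j) (hf₀.comp (he₀.comp (hh j))) (hk j) (hD j)
      have hle : Pt.Le u₁ q := ⟨ι, hι, hιx⟩
      have hle0 : Pt.Le p₀ u₁ := ⟨f₀, hf₀, hf₀x⟩
      refine ⟨q, hqc, hle0.trans' hle, fun i hi => (hu₁ i hi).trans' hle, u₁, ι, g, hle0,
        fun i hi => hu₁ i hi, hι, hιx, hg, ?_, ?_⟩
      · intro b
        rw [hgk, hιx]
        exact hf₀x _
      · rw [map_rng] at hI
        have e5 : (g.comp (k j)).toHom.range =
            (ι.comp (f₀.comp (e₀.toEmbedding.comp (h j)))).toHom.range :=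
          rng_congr fun b => hgk b
        rw [e5]
        exact hI
  obtain ⟨U, hUc, hU0, hU⟩ := sup_family hμ hJ p₀ h0c p Set.univ (fun i _ =>
    ⟨(hall i).1, (hall i).2.1, (hall i).2.2.1⟩)
  obtain ⟨f₀, hf₀, hf₀x⟩ := hU0
  choose v hv hvx using fun j => hU j (Set.mem_univ j)
  choose p' ι g hp0' hpi' hι hιx hg hgb hI using fun j => (hall j).2.2.2
  -- equality in `U.S` is equality in `X`
  have hbase : ∀ j, (h j).toHom.range.map (f₀.comp e₀.toEmbedding).toHom =
      ((v j).comp ((g j).comp (k j))).toHom.range := by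
    intro j
    rw [map_rng]
    refine rng_congr fun b => Subtype.ext ?_
    show (f₀ (e₀ (h j b)) : X) = (v j (g j (k j b)) : X)
    rw [hf₀x, hvx, hgb]
  have hE : ∀ j, I.Ind U.S ((h j).toHom.range.map (f₀.comp e₀.toEmbedding).toHom)
      ((v j).comp (g j)).toHom.range ((v j).comp (ι j)).toHom.range := by
    intro j
    have h1 := (I.inv (p j).S U.S (v j) (hv j) _ _ _).mp (hI j)
    rw [map_rng, map_rng, map_rng] at h1
    rw [hbase]
    exact h1
  have hsub : ∀ j (r : K.Pt X), Pt.Le r (p' j) → ∀ z : U.S, (z : X) ∈ r.S →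
      z ∈ ((v j).comp (ι j)).toHom.range := by
    intro j r hr z hz
    obtain ⟨f, -, hfx⟩ := hr
    refine (mem_rng _ _).2 ⟨f ⟨z, hz⟩, Subtype.ext ?_⟩
    show (v j (ι j (f ⟨z, hz⟩)) : X) = z
    rw [hvx, hιx, hfx]
  have hgS : ∀ i (z : U.S), z ∈ ((v i).comp (g i)).toHom.range → (z : X) ∈ (p i).S := by
    intro i z hz
    obtain ⟨d, rfl⟩ := (mem_rng _ _).1 hz
    show (v i (g i d) : X) ∈ (p i).S
    rw [hvx]
    exact (g i d).2
  refine ⟨U.S, inferInstance, f₀.comp e₀.toEmbedding, fun j => (v j).comp (g j),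
    hf₀.comp he₀, fun j => (hv j).comp (hg j), hUc, ?_, ?_, ?_⟩
  · intro j b
    refine Subtype.ext ?_
    show (v j (g j (k j b)) : X) = (f₀ (e₀ (h j b)) : X)
    rw [hf₀x, hvx, hgb]
  · intro j
    refine I.mono_right (hE j) (hf₀.comp he₀) ?_ ?_
    · rw [map_rng]
      intro z hz
      obtain ⟨x, rfl⟩ := (mem_rng _ _).1 hz
      exact (mem_rng _ _).2 ⟨h j x, rfl⟩
    · intro z hz
      obtain ⟨y, rfl⟩ := (mem_rng _ _).1 hz
      refine hsub j p₀ (hp0' j) _ ?_
      show (f₀ (e₀ y) : X) ∈ p₀.S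
      rw [hf₀x]
      exact (e₀ y).2
  · intro i j hij
    rcases lt_or_gt_of_ne hij with hlt | hgt
    · exact ⟨((v j).comp (ι j)).toHom.range, Or.inl
        ⟨fun z hz => hsub j (p i) (hpi' j i hlt) z (hgS i z hz), hE j⟩⟩
    · exact ⟨((v i).comp (ι i)).toHom.range, Or.inr
        ⟨fun z hz => hsub i (p j) (hpi' i j hgt) z (hgS j z hz), hE i⟩⟩

end WeaklyStable

end AEC

end Pool.Agent.H85.AECT
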