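import Pool.Agent.H85.WS.TreeDefs
import Pool.Agent.H85.WS.Wide

set_option autoImplicit false

/-!
# Existence of trees

PROOF of `exists_tree`. Define the levels by recursion on `n` (a state is a structure `Q n` of size at
most `μ` with strong embeddings `F n s : P n → Q n` for all `s : Fin n → Λ`; build the sequence of
states with `Nat.rec` and `Classical.choose`), starting with `Q 0 = P 0` and the identity. The next
level is given by `exists_wide` for the index set `J = (Fin (n + 1) → Λ)` (of size at most `μ`, as `μ` is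
infinite), `B s = P n`, `D s = P (n + 1)`, `h s = F n (s restricted to Fin n)`, `k s` the inclusion. The
clause `ind_ne` follows from the last clause of `exists_wide` by `mono_right` and symmetry (the two
bases are the same, since the two restrictions are equal).
-/

open FirstOrder FirstOrder.Language Cardinal

namespace Pool.Agent.H85.AECT

universe w

variable {L : FirstOrder.Language.{w, w}} {K : AEC L}

namespace AEC

namespace WeaklyStable

variable (I : K.WeaklyStable)

private theorem range_subtype_t {N : Type w} [L.Structure N] (M : L.Substructure N) :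
    M.subtype.toHom.range = M := by
  ext x
  simp [Hom.mem_range]

private theorem mem_range_t {M N : Type w} [L.Structure M] [L.Structure N] (f : M ↪[L] N)
    (z : N) : z ∈ f.toHom.range ↔ ∃ x, f x = z := by
  rw [Hom.mem_range]
  rfl

private theorem strong_inclusion_t {N : Type w} [L.Structure N] {A B : L.Substructure N}
    (hA : K.Strong N A) (hB : K.Strong N B) (h : A ≤ B) :
    K.StrongEmb (Substructure.inclusion h) := by
  have h1 := (strong_subtype hB).comap hA (by rw [range_subtype_t]; exact h)
  have h2 : (Substructure.inclusion h).toHom.range = A.comap B.subtype.toHom := by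
    ext x
    rw [mem_range_t]
    constructor
    · rintro ⟨y, rfl⟩
      exact y.2
    · intro hx
      exact ⟨⟨x, hx⟩, rfl⟩
  unfold StrongEmb
  rw [h2]
  exact h1

/-- one level of the tree -/
private structure St (K : AEC L) {N : Type w} [L.Structure N] (P : ℕ → L.Substructure N)
    (Λ : Type w) (μ : Cardinal.{w}) (n : ℕ) where
  Q : Type w
  [str : L.Structure Q]
  F : (Fin n → Λ) → (P n ↪[L] Q)
  strong_F : ∀ s, K.StrongEmb (F s)
  card_le : #Q ≤ μ
  mem : K.Mem Q

attribute [instance] St.str

private def Rel {N : Type w} [L.Structure N] {P : ℕ → L.Substructure N}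
    (hmono : ∀ n, P n ≤ P (n + 1)) {Λ : Type w} {μ : Cardinal.{w}} (n : ℕ)
    (S : St K P Λ μ n) (S' : St K P Λ μ (n + 1)) (u : S.Q ↪[L] S'.Q) : Prop :=
  K.StrongEmb u ∧
  (∀ (s : Fin (n + 1) → Λ) (x : P n),
    S'.F s (Substructure.inclusion (hmono n) x) = u (S.F (fun k => s k.castSucc) x)) ∧
  (∀ s : Fin (n + 1) → Λ,
    I.Ind S'.Q ((S.F (fun k => s k.castSucc)).toHom.range.map u.toHom)
      (S'.F s).toHom.range u.toHom.range) ∧
  (∀ s s' : Fin (n + 1) → Λ, s ≠ s' →
    (fun k : Fin n => s k.castSucc) = (fun k : Fin n => s' k.castSucc) →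
    I.Ind S'.Q ((S.F (fun k => s k.castSucc)).toHom.range.map u.toHom)
      (S'.F s).toHom.range (S'.F s').toHom.range)

private theorem step_tree {μ : Cardinal.{w}} (hLS : K.LS ≤ μ) {N : Type w} [L.Structure N]
    (P : ℕ → L.Substructure N) (hP : ∀ n, K.Strong N (P n)) (hmono : ∀ n, P n ≤ P (n + 1))
    (hPc : ∀ n, #(P n) ≤ μ) (Λ : Type w) (hΛ : #Λ ≤ μ) (n : ℕ) (S : St K P Λ μ n) :
    ∃ (S' : St K P Λ μ (n + 1)) (u : S.Q ↪[L] S'.Q), Rel I hmono n S S' u := by
  have hμ : ℵ₀ ≤ μ := (ls_spec (K := K)).1.trans hLS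
  have hJ : #(Fin (n + 1) → Λ) ≤ μ := by
    have h1 : #(Fin (n + 1) → Λ) = #Λ ^ (n + 1) := by
      rw [← Cardinal.power_natCast]
      simp
    rw [h1]
    calc #Λ ^ (n + 1) ≤ μ ^ (n + 1) := pow_le_pow_left' hΛ _
      _ ≤ μ := by
        have := Cardinal.power_nat_le (c := μ) (n := n + 1) hμ
        simpa using this
  obtain ⟨Q', str', u, g, hu, hg, hc, hcomp, hind, hne⟩ := I.exists_wide hLS S.mem S.card_le
    (J := Fin (n + 1) → Λ) hJ (fun _ => P n) (fun _ => P (n + 1))
    (fun s => S.F (fun k => s k.castSucc)) (fun _ => Substructure.inclusion (hmono n))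
    (fun s => S.strong_F _) (fun _ => strong_inclusion_t (hP n) (hP (n + 1)) (hmono n))
    (fun _ => hPc (n + 1))
  have hle : ∀ s : Fin (n + 1) → Λ,
      (S.F (fun k => s k.castSucc)).toHom.range.map u.toHom ≤ (g s).toHom.range := by
    intro s z hz
    obtain ⟨y, hy, rfl⟩ := hz
    obtain ⟨x, rfl⟩ := (mem_range_t _ _).1 hy
    exact (mem_range_t _ _).2 ⟨_, hcomp s x⟩
  refine ⟨{ Q := Q', str := str', F := g, strong_F := hg, card_le := hc, mem := hu.mem }, u,
    hu, fun s x => hcomp s x, fun s => hind s, ?_⟩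
  intro s s' hs hss
  obtain ⟨E, ⟨hE1, hE2⟩ | ⟨hE1, hE2⟩⟩ := hne s s' hs
  · have h1 : I.Ind Q' ((S.F (fun k => s k.castSucc)).toHom.range.map u.toHom)
        (g s').toHom.range E := by
      rw [hss]
      exact hE2
    exact I.symm _ _ _ _ (I.mono_right h1 (hg s) (hle s) hE1)
  · have h2 : (S.F (fun k => s k.castSucc)).toHom.range.map u.toHom ≤ (g s').toHom.range := by
      rw [hss]
      exact hle s'
    exact I.mono_right hE2 (hg s') h2 hE1

theorem exists_tree {μ : Cardinal.{w}} (hLS : K.LS ≤ μ) {N : Type w} [L.Structure N]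
    (P : ℕ → L.Substructure N) (hP : ∀ n, K.Strong N (P n)) (hmono : ∀ n, P n ≤ P (n + 1))
    (hPc : ∀ n, #(P n) ≤ μ) (Λ : Type w) (hΛ : #Λ ≤ μ) :
    Nonempty (I.Tree P hmono Λ μ) := by
  classical
  have hm0 : K.Mem (P 0) := (K.mem_of_strong _ _ (hP 0)).2
  let S0 : St K P Λ μ 0 :=
    { Q := P 0
      F := fun _ => Embedding.refl L (P 0)
      strong_F := fun _ => by
        have h1 : (Embedding.refl L (P 0)).toHom.range = ⊤ := by
          ext x
          rw [mem_range_t]
          exact ⟨fun _ => Substructure.mem_top _, fun _ => ⟨x, rfl⟩⟩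
        unfold StrongEmb
        rw [h1]
        exact K.refl _ hm0
      card_le := hPc 0
      mem := hm0 }
  have hstep := step_tree I hLS P hP hmono hPc Λ hΛ
  obtain ⟨f, hf⟩ : ∃ f : ∀ n, St K P Λ μ n,
      ∀ n, ∃ u : (f n).Q ↪[L] (f (n + 1)).Q, Rel I hmono n (f n) (f (n + 1)) u :=
    ⟨fun n => Nat.rec S0 (fun n S => (hstep n S).choose) n,
      fun n => (hstep n _).choose_spec⟩
  choose u hu using hf
  exact ⟨{ Q := fun n => (f n).Q
           str := fun n => (f n).str
           u := u
           F := fun n => (f n).F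
           strong_u := fun n => (hu n).1
           strong_F := fun n s => (f n).strong_F s
           card_le := fun n => (f n).card_le
           F_succ := fun n s x => (hu n).2.1 s x
           ind_level := fun n s => (hu n).2.2.1 s
           ind_ne := fun n s s' h1 h2 => (hu n).2.2.2 s s' h1 h2 }⟩

end WeaklyStable

end AEC

end Pool.Agent.H85.AECT
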