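import Pool.Agent.H85.WS.Small
import Pool.Agent.H85.WS.Tree
import Pool.Agent.H85.WS.Distinct
import Pool.Agent.H85.WS.Many

set_option autoImplicit false

/-!
# The main theorem

PROOF of `no_chain`. Otherwise take a type `Λ` with `#Λ = μ`, a tree (`exists_tree`), the limit `Qω` of
its levels (`exists_omega_limit`, of size at most `μ`), for every `b : ℕ → Λ` the branch type
(`exists_branch`); by `not_sameType` they are pairwise different, and there are `μ ^ ℵ₀ > μ` of them;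
apply `not_stableIn_of_types`.

PROOF of `exists_local`. Otherwise choose for every `Q : K.Sml M θ` some `R ≥ Q` in `K.Sml M θ` with
`f R` dependent on `a` over `f Q`; starting anywhere (`exists_ub`) this gives `Q 0 ≤ Q 1 ≤ ...`, and
`P n = (Q n).1.map f.toHom` contradicts `no_chain`.

PROOF of `tame_of_stableIn`. Take `Q` from `exists_local` for `f₁, a₁`. By `ind_transfer` (as the types
agree over every `R : K.Sml M θ`) the same `Q` works for `f₂, a₂`. By `ind_of_small` for `R = ⊤` both are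
independent from `M` over `Q`. The types agree over `Q`, so `isos_nonempty`, `isos_extend` (with
`R = ⊤`) and `sameType_of_isos` give the claim.
-/

open FirstOrder FirstOrder.Language Cardinal

namespace Pool.Agent.H85.AECT

universe w

variable {L : FirstOrder.Language.{w, w}} {K : AEC L}

namespace AEC

namespace WeaklyStable

variable (I : K.WeaklyStable)

theorem no_chain (hK : K.HasClosures) {μ : Cardinal.{w}} (hLS : K.LS ≤ μ)
    (hpow : μ < μ ^ ℵ₀) (hst : K.StableIn μ) {N : Type w} [L.Structure N] (a : N)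
    (P : ℕ → L.Substructure N) (hP : ∀ n, K.Strong N (P n)) (hmono : ∀ n, P n ≤ P (n + 1))
    (hPc : ∀ n, #(P n) ≤ μ) :
    ∃ n, I.Ind N (P n) (K.cl (insert a (P n : Set N))) (P (n + 1)) := by
  by_contra hcon
  have hdep : ∀ n, ¬ I.Ind N (P n) (K.cl (insert a (P n : Set N))) (P (n + 1)) :=
    not_exists.mp hcon
  have hμ : ℵ₀ ≤ μ := (ls_spec (K := K)).1.trans hLS
  obtain ⟨T⟩ := I.exists_tree hLS P hP hmono hPc μ.out (Cardinal.mk_out μ).le
  obtain ⟨Qω, hQω, i, hi, hiu, hsurj⟩ := exists_omega_limit T.Q T.u T.strong_u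
  have hQc : #Qω ≤ μ := by
    have h1 : (Set.univ : Set Qω) ⊆ ⋃ n : ULift.{w} ℕ, Set.range (i n.down) := by
      intro p _
      obtain ⟨n, x, hx⟩ := hsurj p
      exact Set.mem_iUnion.mpr ⟨⟨n⟩, x, hx⟩
    have h2 : #(⋃ n : ULift.{w} ℕ, Set.range (i n.down) : Set Qω) ≤ μ := by
      apply mk_union_le_of hμ
      · simpa using hμ
      · intro n
        exact Cardinal.mk_range_le.trans (T.card_le n.down)
    rw [← Cardinal.mk_univ]
    exact (Cardinal.mk_le_mk_of_subset h1).trans h2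
  choose G hG V W hV hW hWs using fun b : ℕ → μ.out => exists_branch hK T hP a hi hiu hsurj b
  refine I.not_stableIn_of_types (ι := ℕ → μ.out) hLS hQc ?_ G V hV
    (fun b => W b 0 ⟨a, subset_cl _ (Set.mem_insert _ _)⟩) ?_ hst
  · simpa using hpow
  · intro b b' hbb'
    exact not_sameType hK T hP a hdep hi hiu b b' hbb' (hV b) (hV b') (hW b) (hW b')
      (hWs b) (hWs b')

theorem exists_local (hK : K.HasClosures) {θ μ : Cardinal.{w}} (hLS : K.LS ≤ θ) (hθμ : θ ≤ μ)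
    (hpow : μ < μ ^ ℵ₀) (hst : K.StableIn μ) {M N : Type w} [L.Structure M] [L.Structure N]
    {f : M ↪[L] N} (a : N) (hf : K.StrongEmb f) :
    ∃ Q : K.Sml M θ, ∀ R : K.Sml M θ, Q.1 ≤ R.1 →
      I.Ind N (Q.1.map f.toHom) (K.clOver f a Q.1) (R.1.map f.toHom) := by
  by_contra hcon
  push Not at hcon
  choose R hR hR' using hcon
  obtain ⟨Q₀, _⟩ := exists_ub (K := K) (θ := θ) hf.mem_left hLS ∅ (by simp) ∅ (by simp)
  let Q : ℕ → K.Sml M θ := fun n => Nat.rec Q₀ (fun _ q => R q) n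
  have hQ : ∀ n, Q (n + 1) = R (Q n) := fun n => rfl
  obtain ⟨n, hn⟩ := I.no_chain hK (hLS.trans hθμ) hpow hst a (fun n => (Q n).1.map f.toHom)
    (fun n => hf.map (Q n).2.1)
    (fun n => (Substructure.gc_map_comap f.toHom).monotone_l (by rw [hQ]; exact hR (Q n)))
    (fun n => (Cardinal.mk_image_le (f := f.toHom) (s := ((Q n).1 : Set M))).trans
      ((Q n).2.2.trans hθμ))
  exact hR' (Q n) hn

include I in
theorem tame_of_stableIn (hK : K.HasClosures) {θ μ : Cardinal.{w}} (hLS : K.LS ≤ θ)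
    (hθμ : θ ≤ μ) (hpow : μ < μ ^ ℵ₀) (hst : K.StableIn μ) : K.Tame θ := by
  intro M N₁ N₂ _ _ _ f₁ a₁ f₂ a₂ hf₁ hf₂ hsm
  obtain ⟨Q, hQ⟩ := I.exists_local hK hLS hθμ hpow hst a₁ hf₁
  have hQ2 : ∀ R : K.Sml M θ, Q.1 ≤ R.1 →
      I.Ind N₂ (Q.1.map f₂.toHom) (K.clOver f₂ a₂ Q.1) (R.1.map f₂.toHom) := by
    intro R hQR
    obtain ⟨N, _, g₁, g₂, hg₁, hg₂, hm, ha⟩ := hsm R.1 R.2.1 R.2.2
    exact I.ind_transfer hK hf₁ hf₂ hg₁ hg₂ Q.2.1 R.2.1 hQR
      (fun m hmR => hm ⟨m, hmR⟩) ha (hQ R hQR)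
  have htop := K.refl M hf₁.mem_left
  have h1 := I.ind_of_small hK hLS hf₁ hQ ⊤ htop le_top
  have h2 := I.ind_of_small hK hLS hf₂ hQ2 ⊤ htop le_top
  obtain ⟨e, he⟩ := isos_nonempty hK hf₁ hf₂ Q.2.1 (hsm Q.1 Q.2.1 Q.2.2)
  obtain ⟨e', he', _⟩ := I.isos_extend hK hf₁ hf₂ Q.2.1 htop le_top h1 h2 he
  exact sameType_of_isos hK I.amalgamation hf₁ hf₂ he'

end WeaklyStable

/-- There are arbitrarily large cardinals `μ` with `μ < μ ^ ℵ₀`. -/
theorem exists_lt_power (κ : Cardinal.{w}) : ∃ μ : Cardinal.{w}, κ ≤ μ ∧ μ < μ ^ ℵ₀ := by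
  let f : ℕ → Cardinal.{w} := fun n => Nat.rec κ (fun _ c => Order.succ c) n
  have hf : ∀ n, f n < f (n + 1) := fun n => Order.lt_succ (f n)
  refine ⟨Cardinal.sum f, Cardinal.le_sum f 0, ?_⟩
  have h1 : Cardinal.sum f < Cardinal.prod (fun n => f (n + 1)) := Cardinal.sum_lt_prod _ _ hf
  have h2 : Cardinal.prod (fun n => f (n + 1)) ≤ Cardinal.prod (fun _ : ℕ => Cardinal.sum f) :=
    Cardinal.prod_le_prod _ _ fun n => Cardinal.le_sum f (n + 1)
  refine h1.trans_le (h2.trans ?_)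
  simp [Cardinal.prod_const]

end AEC

end Pool.Agent.H85.AECT
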