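import Pool.Agent.H85.WS.Defs

set_option autoImplicit false

/-!
# Monotonicity of weakly stable independence
-/

open FirstOrder FirstOrder.Language Cardinal

namespace Pool.Agent.H85.AECT

universe w

variable {L : FirstOrder.Language.{w, w}} {K : AEC L}

namespace AEC

namespace WeaklyStable

variable (I : K.WeaklyStable)

private theorem range_subtype' {N : Type w} [L.Structure N] (M : L.Substructure N) :
    M.subtype.toHom.range = M := by
  ext x
  simp [Hom.mem_range]

private theorem mem_range' {M N : Type w} [L.Structure M] [L.Structure N] (f : M ↪[L] N) (z : N) :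
    z ∈ f.toHom.range ↔ ∃ x, f x = z := by
  rw [Hom.mem_range]
  rfl

private theorem map_range' {M N P : Type w} [L.Structure M] [L.Structure N] [L.Structure P]
    (g : N ↪[L] P) (f : M ↪[L] N) :
    f.toHom.range.map g.toHom = (g.comp f).toHom.range := by
  rw [← Hom.range_comp]
  congr 1

/-- Uniqueness for substructures. -/
theorem amalg {N N' : Type w} [L.Structure N] [L.Structure N'] {M₀ M₁ M₂ : L.Substructure N}
    (h : I.Ind N M₀ M₁ M₂) (j₁ : M₁ ↪[L] N') (j₂ : M₂ ↪[L] N')
    (hj₁ : K.StrongEmb j₁) (hj₂ : K.StrongEmb j₂)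
    (hj : ∀ (x : M₁) (y : M₂), (x : N) = y → (x : N) ∈ M₀ → j₁ x = j₂ y)
    {M₀' : L.Substructure N'}
    (hM₀' : ∀ z, z ∈ M₀' ↔ ∃ x : M₁, (x : N) ∈ M₀ ∧ j₁ x = z)
    (h' : I.Ind N' M₀' j₁.toHom.range j₂.toHom.range) :
    ∃ (P : Type w) (_ : L.Structure P) (g : N ↪[L] P) (g' : N' ↪[L] P),
      K.StrongEmb g ∧ K.StrongEmb g' ∧ (∀ x : M₁, g x = g' (j₁ x)) ∧
      ∀ x : M₂, g x = g' (j₂ x) := by
  obtain ⟨s0, s1, s2, h01, h02⟩ := I.strong _ _ _ _ h
  have k1 : K.StrongEmb (Substructure.inclusion h01) := by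
    have h1 := (strong_subtype s1).comap s0 (by rw [range_subtype']; exact h01)
    have h2 : (Substructure.inclusion h01).toHom.range = M₀.comap M₁.subtype.toHom := by
      ext x
      rw [mem_range']
      constructor
      · rintro ⟨y, rfl⟩
        exact y.2
      · intro hx
        exact ⟨⟨x, hx⟩, rfl⟩
    unfold StrongEmb
    rw [h2]
    exact h1
  have k2 : K.StrongEmb (Substructure.inclusion h02) := by
    have h1 := (strong_subtype s2).comap s0 (by rw [range_subtype']; exact h02)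
    have h2 : (Substructure.inclusion h02).toHom.range = M₀.comap M₂.subtype.toHom := by
      ext x
      rw [mem_range']
      constructor
      · rintro ⟨y, rfl⟩
        exact y.2
      · intro hx
        exact ⟨⟨x, hx⟩, rfl⟩
    unfold StrongEmb
    rw [h2]
    exact h1
  have e0 : (M₁.subtype.comp (Substructure.inclusion h01)).toHom.range = M₀ := by
    ext x
    rw [mem_range']
    constructor
    · rintro ⟨y, rfl⟩
      exact y.2
    · intro hx
      exact ⟨⟨x, hx⟩, rfl⟩
  have e0' : (j₁.comp (Substructure.inclusion h01)).toHom.range = M₀' := by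
    ext z
    rw [mem_range', hM₀' z]
    constructor
    · rintro ⟨y, rfl⟩
      exact ⟨Substructure.inclusion h01 y, y.2, rfl⟩
    · rintro ⟨x, hx, rfl⟩
      exact ⟨⟨x, hx⟩, rfl⟩
  obtain ⟨P, hP, g, g', hg, hg', hx1, hx2⟩ := I.unique M₀ M₁ M₂ N N'
    (Substructure.inclusion h01) (Substructure.inclusion h02) M₁.subtype M₂.subtype j₁ j₂
    k1 k2 (strong_subtype s1) (strong_subtype s2) hj₁ hj₂ (fun m => rfl)
    (fun m => hj _ _ rfl m.2)
    (by rw [e0, range_subtype', range_subtype']; exact h)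
    (by rw [e0']; exact h')
  exact ⟨P, hP, g, g', hg, hg', hx1, hx2⟩

private theorem strong_inclusion {N : Type w} [L.Structure N] {A B : L.Substructure N}
    (hA : K.Strong N A) (hB : K.Strong N B) (h : A ≤ B) :
    K.StrongEmb (Substructure.inclusion h) := by
  have h1 := (strong_subtype hB).comap hA (by rw [range_subtype']; exact h)
  have h2 : (Substructure.inclusion h).toHom.range = A.comap B.subtype.toHom := by
    ext x
    rw [mem_range']
    constructor
    · rintro ⟨y, rfl⟩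
      exact y.2
    · intro hx
      exact ⟨⟨x, hx⟩, rfl⟩
  unfold StrongEmb
  rw [h2]
  exact h1

theorem mono_right {N : Type w} [L.Structure N] {M₀ M₁ M₂ M₂' : L.Substructure N}
    (h : I.Ind N M₀ M₁ M₂) (hs : K.Strong N M₂') (h0 : M₀ ≤ M₂') (h2 : M₂' ≤ M₂) :
    I.Ind N M₀ M₁ M₂' := by
  obtain ⟨s0, s1, s2, h01, h02⟩ := I.strong _ _ _ _ h
  -- `A` is an amalgam of `M₁` and `M₂'` over `M₀`
  obtain ⟨A, hA, p₁, p₂, hp₁, hp₂, hp, hAi⟩ := I.exist M₀ M₁ M₂' (Substructure.inclusion h01)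
    (Substructure.inclusion h0) (strong_inclusion s0 s1 h01) (strong_inclusion s0 hs h0)
  -- `B` is an amalgam of `A` and `M₂` over `M₂'`
  obtain ⟨B, hB, q₁, q₂, hq₁, hq₂, hq, hBi⟩ := I.exist M₂' A M₂ p₂
    (Substructure.inclusion h2) hp₂ (strong_inclusion hs s2 h2)
  -- in `B`, `M₁` and `M₂` are independent over `M₀`
  have i1 := (I.inv A B q₁ hq₁ _ _ _).mp hAi
  rw [map_range', map_range', map_range'] at i1
  have i2 := I.trans B _ _ _ _ _ i1 hBi (by
    rw [← map_range']
    intro z hz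
    obtain ⟨y, _, rfl⟩ := hz
    exact ⟨y, rfl⟩)
  -- compare with `N`
  obtain ⟨P, hP, g, g', hg, hg', hx1, hx2⟩ := I.amalg h (q₁.comp p₁) q₂ (hq₁.comp hp₁) hq₂
    (by
      intro x y hxy hx0
      have e1 := hp ⟨x, hx0⟩
      have e2 := hq ⟨x, h0 hx0⟩
      have e3 : Substructure.inclusion h01 ⟨(x : N), hx0⟩ = x := rfl
      have e4 : Substructure.inclusion h2 ⟨(x : N), h0 hx0⟩ = y := Subtype.ext hxy
      have e5 : Substructure.inclusion h0 ⟨(x : N), hx0⟩ = ⟨(x : N), h0 hx0⟩ := rfl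
      rw [e3, e5] at e1
      rw [e4] at e2
      show q₁ (p₁ x) = q₂ y
      rw [e1, e2])
    (M₀' := (q₁.comp (p₁.comp (Substructure.inclusion h01))).toHom.range)
    (by
      intro z
      rw [mem_range']
      constructor
      · rintro ⟨y, rfl⟩
        exact ⟨Substructure.inclusion h01 y, y.2, rfl⟩
      · rintro ⟨x, hx, rfl⟩
        exact ⟨⟨x, hx⟩, rfl⟩)
    i2
  -- push `i1` to `P`
  have i3 := (I.inv B P g' hg' _ _ _).mp i1
  rw [map_range', map_range', map_range'] at i3
  refine (I.inv N P g hg _ _ _).mpr ?_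
  have t0 : M₀.map g.toHom =
      (g'.comp (q₁.comp (p₁.comp (Substructure.inclusion h01)))).toHom.range := by
    ext z
    rw [mem_range']
    constructor
    · rintro ⟨x, hx, rfl⟩
      exact ⟨⟨x, hx⟩, (hx1 ⟨x, h01 hx⟩).symm⟩
    · rintro ⟨x, rfl⟩
      exact ⟨x, x.2, hx1 (Substructure.inclusion h01 x)⟩
  have t1 : M₁.map g.toHom = (g'.comp (q₁.comp p₁)).toHom.range := by
    ext z
    rw [mem_range']
    constructor
    · rintro ⟨x, hx, rfl⟩
      exact ⟨⟨x, hx⟩, (hx1 ⟨x, hx⟩).symm⟩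
    · rintro ⟨x, rfl⟩
      exact ⟨x, x.2, hx1 x⟩
  have t2 : M₂'.map g.toHom = (g'.comp (q₁.comp p₂)).toHom.range := by
    ext z
    rw [mem_range']
    constructor
    · rintro ⟨x, hx, rfl⟩
      refine ⟨⟨x, hx⟩, ?_⟩
      show g' (q₁ (p₂ ⟨x, hx⟩)) = g x
      rw [hq ⟨x, hx⟩]
      exact (hx2 ⟨x, h2 hx⟩).symm
    · rintro ⟨x, rfl⟩
      refine ⟨x, x.2, ?_⟩
      show g x = g' (q₁ (p₂ x))
      rw [hq x]
      exact hx2 (Substructure.inclusion h2 x)
  rw [t0, t1, t2]
  exact i3

theorem mono_left {N : Type w} [L.Structure N] {M₀ M₁ M₁' M₂ : L.Substructure N}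
    (h : I.Ind N M₀ M₁ M₂) (hs : K.Strong N M₁') (h0 : M₀ ≤ M₁') (h1 : M₁' ≤ M₁) :
    I.Ind N M₀ M₁' M₂ :=
  I.symm _ _ _ _ (I.mono_right (I.symm _ _ _ _ h) hs h0 h1)

theorem base_mono (hK : K.HasClosures) {N : Type w} [L.Structure N] (a : N)
    {M₀ M₁ M₂ : L.Substructure N} (h : I.Ind N M₀ (K.cl (insert a (M₀ : Set N))) M₂)
    (hs : K.Strong N M₁) (h01 : M₀ ≤ M₁) (h12 : M₁ ≤ M₂) :
    I.Ind N M₁ (K.cl (insert a (M₁ : Set N))) M₂ := by
  obtain ⟨s0, sC0, s2, h0C, h02⟩ := I.strong _ _ _ _ h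
  have sC1 : K.Strong N (K.cl (insert a (M₁ : Set N))) := hK N M₁ a hs
  have h1C : M₁ ≤ K.cl (insert a (M₁ : Set N)) := fun x hx =>
    subset_cl _ (Set.mem_insert_of_mem _ hx)
  have hCC : K.cl (insert a (M₀ : Set N)) ≤ K.cl (insert a (M₁ : Set N)) :=
    cl_mono (Set.insert_subset_insert h01)
  -- `B` is an independent amalgam of `C₁` and `M₂` over `M₁`
  obtain ⟨B, hB, q₁, q₂, hq₁, hq₂, hq, hBi⟩ := I.exist M₁ (K.cl (insert a (M₁ : Set N))) M₂
    (Substructure.inclusion h1C) (Substructure.inclusion h12) (strong_inclusion hs sC1 h1C)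
    (strong_inclusion hs s2 h12)
  have i1 : I.Ind N M₀ (K.cl (insert a (M₀ : Set N))) M₁ := I.mono_right h hs h01 h12
  -- pull back to `C₁`
  have back : ∀ T : L.Substructure N, T ≤ K.cl (insert a (M₁ : Set N)) →
      (T.comap (K.cl (insert a (M₁ : Set N))).subtype.toHom).map
        (K.cl (insert a (M₁ : Set N))).subtype.toHom = T := by
    intro T hT
    ext z
    constructor
    · rintro ⟨y, hy, rfl⟩
      exact hy
    · intro hz
      exact ⟨⟨z, hT hz⟩, hz, rfl⟩
  have i2 : I.Ind (K.cl (insert a (M₁ : Set N)))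
      (M₀.comap (K.cl (insert a (M₁ : Set N))).subtype.toHom)
      ((K.cl (insert a (M₀ : Set N))).comap (K.cl (insert a (M₁ : Set N))).subtype.toHom)
      (M₁.comap (K.cl (insert a (M₁ : Set N))).subtype.toHom) := by
    refine (I.inv _ N _ (strong_subtype sC1) _ _ _).mpr ?_
    rw [back _ (h0C.trans hCC), back _ hCC, back _ h1C]
    exact i1
  have i3 := (I.inv _ B q₁ hq₁ _ _ _).mp i2
  have e1 : (M₁.comap (K.cl (insert a (M₁ : Set N))).subtype.toHom).map q₁.toHom =
      (q₁.comp (Substructure.inclusion h1C)).toHom.range := by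
    ext z
    rw [mem_range']
    constructor
    · rintro ⟨y, hy, rfl⟩
      exact ⟨⟨y, hy⟩, rfl⟩
    · rintro ⟨y, rfl⟩
      exact ⟨Substructure.inclusion h1C y, y.2, rfl⟩
  rw [e1] at i3
  have i4 := I.trans B _ _ _ _ _ i3 hBi (by
    rintro z ⟨y, _, rfl⟩
    exact ⟨y, rfl⟩)
  -- compare `N` and `B` over `C₀` and `M₂`
  obtain ⟨P, hP, g, g', hg, hg', hx1, hx2⟩ := I.amalg h
    (q₁.comp (Substructure.inclusion hCC)) q₂
    (hq₁.comp (strong_inclusion sC0 sC1 hCC)) hq₂
    (by
      intro x y hxy hx0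
      have e2 := hq ⟨x, h01 hx0⟩
      have e3 : Substructure.inclusion h1C ⟨(x : N), h01 hx0⟩ = Substructure.inclusion hCC x :=
        rfl
      have e4 : Substructure.inclusion h12 ⟨(x : N), h01 hx0⟩ = y := Subtype.ext hxy
      rw [e3, e4] at e2
      exact e2)
    (M₀' := (M₀.comap (K.cl (insert a (M₁ : Set N))).subtype.toHom).map q₁.toHom)
    (by
      intro z
      constructor
      · rintro ⟨y, hy, rfl⟩
        exact ⟨⟨y, h0C hy⟩, hy, rfl⟩
      · rintro ⟨x, hx, rfl⟩
        exact ⟨Substructure.inclusion hCC x, hx, rfl⟩)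
    (by
      have e5 : (q₁.comp (Substructure.inclusion hCC)).toHom.range =
          ((K.cl (insert a (M₀ : Set N))).comap
            (K.cl (insert a (M₁ : Set N))).subtype.toHom).map q₁.toHom := by
        ext z
        rw [mem_range']
        constructor
        · rintro ⟨y, rfl⟩
          exact ⟨Substructure.inclusion hCC y, y.2, rfl⟩
        · rintro ⟨y, hy, rfl⟩
          exact ⟨⟨y, hy⟩, rfl⟩
      rw [e5]
      exact i4)
  -- the images of `a`
  have ha0 : a ∈ K.cl (insert a (M₀ : Set N)) := subset_cl _ (Set.mem_insert _ _)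
  have ha1 : a ∈ K.cl (insert a (M₁ : Set N)) := subset_cl _ (Set.mem_insert _ _)
  have hga : g a = g' (q₁ ⟨a, ha1⟩) := hx1 ⟨a, ha0⟩
  have hgm : ∀ m (hm : m ∈ M₁), g m = g' (q₁ ⟨m, h1C hm⟩) := by
    intro m hm
    have e6 := hq ⟨m, hm⟩
    have e7 : Substructure.inclusion h1C ⟨m, hm⟩ = ⟨m, h1C hm⟩ := rfl
    rw [e7] at e6
    rw [e6]
    exact hx2 ⟨m, h12 hm⟩
  -- the images of `C₁`
  have hcl1 : K.cl (g '' (insert a (M₁ : Set N))) =
      (K.cl (insert a (M₁ : Set N))).map g.toHom := by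
    apply cl_image hg sC1
    rw [Set.image_insert_eq]
    exact hK P (M₁.map g.toHom) (g a) (hg.map hs)
  have hcl2 : K.cl ((g'.comp q₁) '' {x | (x : N) ∈ insert a (M₁ : Set N)}) =
      (K.cl {x : K.cl (insert a (M₁ : Set N)) | (x : N) ∈ insert a (M₁ : Set N)}).map
        (g'.comp q₁).toHom := by
    have e8 : {x : K.cl (insert a (M₁ : Set N)) | (x : N) ∈ insert a (M₁ : Set N)} =
        insert ⟨a, ha1⟩ ((M₁.comap (K.cl (insert a (M₁ : Set N))).subtype.toHom :
          L.Substructure _) : Set _) := by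
      ext x
      constructor
      · rintro (hx | hx)
        · exact Or.inl (Subtype.ext hx)
        · exact Or.inr hx
      · rintro (hx | hx)
        · exact Or.inl (congrArg Subtype.val hx)
        · exact Or.inr hx
    have sM1 : K.Strong (K.cl (insert a (M₁ : Set N)))
        (M₁.comap (K.cl (insert a (M₁ : Set N))).subtype.toHom) :=
      (strong_subtype sC1).comap hs (by rw [range_subtype']; exact h1C)
    apply cl_image (hg'.comp hq₁)
    · rw [e8]
      exact hK _ _ _ sM1
    · rw [e8, Set.image_insert_eq]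
      exact hK P ((M₁.comap _).map (g'.comp q₁).toHom) _ ((hg'.comp hq₁).map sM1)
  have htop : K.cl {x : K.cl (insert a (M₁ : Set N)) | (x : N) ∈ insert a (M₁ : Set N)} = ⊤ := by
    rw [eq_top_iff]
    have e9 : K.cl ((K.cl (insert a (M₁ : Set N))).subtype ''
        {x : K.cl (insert a (M₁ : Set N)) | (x : N) ∈ insert a (M₁ : Set N)}) =
        (K.cl {x : K.cl (insert a (M₁ : Set N)) | (x : N) ∈ insert a (M₁ : Set N)}).map
          (K.cl (insert a (M₁ : Set N))).subtype.toHom := by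
      have e10 : (K.cl (insert a (M₁ : Set N))).subtype ''
          {x : K.cl (insert a (M₁ : Set N)) | (x : N) ∈ insert a (M₁ : Set N)} =
          insert a (M₁ : Set N) := by
        ext z
        constructor
        · rintro ⟨y, hy, rfl⟩
          exact hy
        · intro hz
          exact ⟨⟨z, subset_cl _ hz⟩, hz, rfl⟩
      have e8 : {x : K.cl (insert a (M₁ : Set N)) | (x : N) ∈ insert a (M₁ : Set N)} =
          insert ⟨a, ha1⟩ ((M₁.comap (K.cl (insert a (M₁ : Set N))).subtype.toHom :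
            L.Substructure _) : Set _) := by
        ext x
        constructor
        · rintro (hx | hx)
          · exact Or.inl (Subtype.ext hx)
          · exact Or.inr hx
        · rintro (hx | hx)
          · exact Or.inl (congrArg Subtype.val hx)
          · exact Or.inr hx
      apply cl_image (strong_subtype sC1)
      · rw [e8]
        exact hK _ _ _ ((strong_subtype sC1).comap hs (by rw [range_subtype']; exact h1C))
      · rw [e10]
        exact sC1
    intro x _
    have e10 : (K.cl (insert a (M₁ : Set N))).subtype ''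
        {x : K.cl (insert a (M₁ : Set N)) | (x : N) ∈ insert a (M₁ : Set N)} =
        insert a (M₁ : Set N) := by
      ext z
      constructor
      · rintro ⟨y, hy, rfl⟩
        exact hy
      · intro hz
        exact ⟨⟨z, subset_cl _ hz⟩, hz, rfl⟩
    rw [e10] at e9
    obtain ⟨y, hy, hyx⟩ := (SetLike.ext_iff.mp e9 (x : N)).mp x.2
    have : y = x := Subtype.ext hyx
    rw [← this]
    exact hy
  have himg : (g'.comp q₁) '' {x | (x : N) ∈ insert a (M₁ : Set N)} =
      g '' (insert a (M₁ : Set N)) := by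
    ext z
    constructor
    · rintro ⟨y, hy, rfl⟩
      refine ⟨y, hy, ?_⟩
      rcases hy with hy | hy
      · have : y = ⟨a, ha1⟩ := Subtype.ext hy
        rw [this]
        exact hga
      · exact hgm y hy
    · rintro ⟨y, hy, rfl⟩
      refine ⟨⟨y, subset_cl _ hy⟩, hy, ?_⟩
      rcases hy with hy | hy
      · subst hy
        exact hga.symm
      · exact (hgm y hy).symm
  have hC1 : (K.cl (insert a (M₁ : Set N))).map g.toHom = (g'.comp q₁).toHom.range := by
    rw [← hcl1, ← himg, hcl2, htop, Hom.range_eq_map]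
  refine (I.inv N P g hg _ _ _).mpr ?_
  have i5 := (I.inv B P g' hg' _ _ _).mp hBi
  rw [map_range', map_range', map_range'] at i5
  have t1 : M₁.map g.toHom = (g'.comp (q₁.comp (Substructure.inclusion h1C))).toHom.range := by
    ext z
    rw [mem_range']
    constructor
    · rintro ⟨x, hx, rfl⟩
      exact ⟨⟨x, hx⟩, (hgm x hx).symm⟩
    · rintro ⟨x, rfl⟩
      exact ⟨x, x.2, hgm x x.2⟩
  have t2 : M₂.map g.toHom = (g'.comp q₂).toHom.range := by
    ext z
    rw [mem_range']
    constructor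
    · rintro ⟨x, hx, rfl⟩
      exact ⟨⟨x, hx⟩, (hx2 ⟨x, hx⟩).symm⟩
    · rintro ⟨x, rfl⟩
      exact ⟨x, x.2, hx2 x⟩
  rw [t1, hC1, t2]
  exact i5

end WeaklyStable

end AEC

end Pool.Agent.H85.AECT
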