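import Pool.Agent.H85.WS.Mono

set_option autoImplicit false

/-!
# Independence of the closures over models

All statements are about strong embeddings `f : M → N`, elements `a` of `N` and strong
substructures `Q ≤ R` of `M`; `K.clOver f a Q = cl (f Q ∪ {a})`.

PROOFS.
`base_mono_over`: `I.base_mono` for the substructures `Q.map f.toHom` etc.

`isos_extend`: by `I.amalg` (for `N₁`, `M₀ = Q.map f₁`, `M₁ = clOver f₁ a₁ Q`, `M₂ = R.map f₁`,
`j₁ = subtype ∘ e`, `j₂ : R.map f₁ → N₂` induced by `f₂`) there is `P` with strong embeddings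
`g₁ : N₁ → P`, `g₂ : N₂ → P` such that `g₁ (f₁ m) = g₂ (f₂ m)` for `m ∈ R` and `g₁ x = g₂ (e x)` for
`x` in `clOver f₁ a₁ Q`; in particular `g₁ a₁ = g₂ a₂`. Apply `isos_of_amalgam` for `R`.

`ind_transfer`: the images of `Q.map f₁`, `clOver f₁ a₁ Q`, `R.map f₁` under `g₁` are those of
`Q.map f₂`, `clOver f₂ a₂ Q`, `R.map f₂` under `g₂` (for the closures use `isos_of_amalgam` or
`cl_image`); apply `I.inv` twice.

`exists_nf`: `I.exist` for the base `Q`, `f₁ : Q → clOver f a Q` (`q ↦ f q`) and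
`f₂ = Q.subtype : Q → M`, giving `g₁ : clOver f a Q → N'`, `g₂ : M → N'`; put `f' = g₂`,
`a' = g₁ a`. The isomorphism of closures and the fact that the range of `g₁` is `clOver f' a' Q`
come from `isos_of_amalgam`/`cl_image` (`g₁` is strong and `clOver f a Q` is the closure of
`f Q ∪ {a}` also inside itself).
-/

open FirstOrder FirstOrder.Language Cardinal

namespace Pool.Agent.H85.AECT

universe w

variable {L : FirstOrder.Language.{w, w}} {K : AEC L}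

namespace AEC

namespace WeaklyStable

variable (I : K.WeaklyStable)

theorem base_mono_over (hK : K.HasClosures) {M N : Type w} [L.Structure M] [L.Structure N]
    {f : M ↪[L] N} {a : N} (hf : K.StrongEmb f) {Q R S : L.Substructure M}
    (hR : K.Strong M R) (hQR : Q ≤ R) (hRS : R ≤ S)
    (h : I.Ind N (Q.map f.toHom) (K.clOver f a Q) (S.map f.toHom)) :
    I.Ind N (R.map f.toHom) (K.clOver f a R) (S.map f.toHom) :=
  I.base_mono hK a (M₀ := Q.map f.toHom) (M₁ := R.map f.toHom) (M₂ := S.map f.toHom) h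
    (hf.map hR) (Substructure.monotone_map hQR) (Substructure.monotone_map hRS)

theorem isos_extend (hK : K.HasClosures) {M N₁ N₂ : Type w} [L.Structure M] [L.Structure N₁]
    [L.Structure N₂] {f₁ : M ↪[L] N₁} {a₁ : N₁} {f₂ : M ↪[L] N₂} {a₂ : N₂}
    (hf₁ : K.StrongEmb f₁) (hf₂ : K.StrongEmb f₂) {Q R : L.Substructure M}
    (hQ : K.Strong M Q) (hR : K.Strong M R) (hQR : Q ≤ R)
    (h₁ : I.Ind N₁ (Q.map f₁.toHom) (K.clOver f₁ a₁ Q) (R.map f₁.toHom))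
    (h₂ : I.Ind N₂ (Q.map f₂.toHom) (K.clOver f₂ a₂ Q) (R.map f₂.toHom))
    {e : K.clOver f₁ a₁ Q ≃[L] K.clOver f₂ a₂ Q} (he : e ∈ K.Isos f₁ a₁ f₂ a₂ Q) :
    ∃ e' ∈ K.Isos f₁ a₁ f₂ a₂ R, ∀ (x : K.clOver f₁ a₁ Q) (y : K.clOver f₁ a₁ R),
      (x : N₁) = y → (e x : N₂) = e' y := by
  have s1 : K.Strong N₁ (K.clOver f₁ a₁ Q) := strong_clOver hK hf₁ hQ
  have s2 : K.Strong N₂ (K.clOver f₂ a₂ Q) := strong_clOver hK hf₂ hQ
  have t1 : K.StrongEmb ((K.clOver f₂ a₂ Q).subtype.comp e.toEmbedding) :=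
    (strong_subtype s2).comp (strongEmb_equiv e (K.mem_of_strong _ _ s1).2)
  have t2 : K.StrongEmb ((f₂.comp R.subtype).comp (f₁.substructureEquivMap R).symm.toEmbedding) :=
    (hf₂.comp (strong_subtype hR)).comp
      (strongEmb_equiv _ (K.mem_of_strong _ _ (hf₁.map hR)).2)
  have hj2 : ∀ (m : M) (hm : m ∈ R) (y : R.map f₁.toHom), (y : N₁) = f₁ m →
      (f₁.substructureEquivMap R).symm y = ⟨m, hm⟩ := by
    intro m hm y hy
    have h5 : f₁.substructureEquivMap R ⟨m, hm⟩ = y := by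
      apply Subtype.ext
      rw [hy]
      rfl
    rw [← h5, Language.Equiv.symm_apply_apply]
  have hr1 : ((K.clOver f₂ a₂ Q).subtype.comp e.toEmbedding).toHom.range = K.clOver f₂ a₂ Q := by
    ext z
    constructor
    · rintro ⟨x, rfl⟩
      exact (e x).2
    · intro hz
      refine ⟨e.symm ⟨z, hz⟩, ?_⟩
      show ((e (e.symm ⟨z, hz⟩) : K.clOver f₂ a₂ Q) : N₂) = z
      rw [Language.Equiv.apply_symm_apply]
  have hr2 : ((f₂.comp R.subtype).comp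
      (f₁.substructureEquivMap R).symm.toEmbedding).toHom.range = R.map f₂.toHom := by
    ext z
    constructor
    · rintro ⟨x, rfl⟩
      exact ⟨_, ((f₁.substructureEquivMap R).symm x).2, rfl⟩
    · rintro ⟨m, hm, rfl⟩
      refine ⟨⟨f₁ m, ⟨m, hm, rfl⟩⟩, ?_⟩
      show f₂ (((f₁.substructureEquivMap R).symm ⟨f₁ m, ⟨m, hm, rfl⟩⟩ : R) : M) = f₂ m
      rw [hj2 m hm ⟨f₁ m, ⟨m, hm, rfl⟩⟩ rfl]
  have hP := I.amalg h₁ ((K.clOver f₂ a₂ Q).subtype.comp e.toEmbedding)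
    ((f₂.comp R.subtype).comp (f₁.substructureEquivMap R).symm.toEmbedding) t1 t2
    (by
      rintro x y hxy ⟨q, hq, hqx⟩
      have hx : (x : N₁) = f₁ q := hqx.symm
      show (e x : N₂) = f₂ (((f₁.substructureEquivMap R).symm y : R) : M)
      rw [he.1 q hq x hx, hj2 q (hQR hq) y (hxy.symm.trans hx)])
    (M₀' := Q.map f₂.toHom)
    (by
      intro z
      constructor
      · rintro ⟨q, hq, rfl⟩
        exact ⟨⟨f₁ q, mem_clOver_of_mem hq⟩, ⟨q, hq, rfl⟩, he.1 q hq _ rfl⟩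
      · rintro ⟨x, ⟨q, hq, hqx⟩, rfl⟩
        exact ⟨q, hq, (he.1 q hq x hqx.symm).symm⟩)
    (by
      rw [hr1, hr2]
      exact h₂)
  obtain ⟨P, hPs, g₁, g₂, hg₁, hg₂, hx1, hx2⟩ := hP
  have hm : ∀ m ∈ R, g₁ (f₁ m) = g₂ (f₂ m) := by
    intro m hm
    have h5 := hx2 ⟨f₁ m, ⟨m, hm, rfl⟩⟩
    have h6 : g₁ (f₁ m) = g₂ (f₂ (((f₁.substructureEquivMap R).symm
      ⟨f₁ m, ⟨m, hm, rfl⟩⟩ : R) : M)) := h5
    rw [hj2 m hm ⟨f₁ m, ⟨m, hm, rfl⟩⟩ rfl] at h6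
    exact h6
  have ha : g₁ a₁ = g₂ a₂ := by
    have h5 := hx1 ⟨a₁, mem_clOver_base⟩
    have h6 : g₁ a₁ = g₂ (e ⟨a₁, mem_clOver_base⟩ : N₂) := h5
    rw [he.2 ⟨a₁, mem_clOver_base⟩ rfl] at h6
    exact h6
  obtain ⟨e', he', hx'⟩ := isos_of_amalgam (f₁ := f₁) (f₂ := f₂) (Q := R) hK hf₁ hf₂ hg₁ hg₂ hR hm ha
  refine ⟨e', he', fun x y hxy => ?_⟩
  have h3 : g₁ x = g₂ (e x : N₂) := hx1 x
  have h4 := hx' y
  rw [← hxy, h3] at h4
  exact g₂.injective h4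

theorem ind_transfer (hK : K.HasClosures) {M N₁ N₂ N : Type w} [L.Structure M]
    [L.Structure N₁] [L.Structure N₂] [L.Structure N] {f₁ : M ↪[L] N₁} {a₁ : N₁}
    {f₂ : M ↪[L] N₂} {a₂ : N₂} (hf₁ : K.StrongEmb f₁) (hf₂ : K.StrongEmb f₂)
    {g₁ : N₁ ↪[L] N} {g₂ : N₂ ↪[L] N} (hg₁ : K.StrongEmb g₁) (hg₂ : K.StrongEmb g₂)
    {Q R : L.Substructure M} (hQ : K.Strong M Q) (hR : K.Strong M R) (hQR : Q ≤ R)
    (hm : ∀ m ∈ R, g₁ (f₁ m) = g₂ (f₂ m)) (ha : g₁ a₁ = g₂ a₂)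
    (h₁ : I.Ind N₁ (Q.map f₁.toHom) (K.clOver f₁ a₁ Q) (R.map f₁.toHom)) :
    I.Ind N₂ (Q.map f₂.toHom) (K.clOver f₂ a₂ Q) (R.map f₂.toHom) := by
  have key : ∀ S : L.Substructure M, S ≤ R →
      (S.map f₁.toHom).map g₁.toHom = (S.map f₂.toHom).map g₂.toHom := by
    intro S hS
    ext z
    constructor
    · rintro ⟨_, ⟨m, hm', rfl⟩, rfl⟩
      exact ⟨_, ⟨m, hm', rfl⟩, (hm m (hS hm')).symm⟩
    · rintro ⟨_, ⟨m, hm', rfl⟩, rfl⟩
      exact ⟨_, ⟨m, hm', rfl⟩, hm m (hS hm')⟩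
  obtain ⟨e, he, hx⟩ := isos_of_amalgam (f₁ := f₁) (f₂ := f₂) (Q := Q) hK hf₁ hf₂ hg₁ hg₂ hQ
    (fun m hm' => hm m (hQR hm')) ha
  have hcl : (K.clOver f₁ a₁ Q).map g₁.toHom = (K.clOver f₂ a₂ Q).map g₂.toHom := by
    ext z
    constructor
    · rintro ⟨x, hx', rfl⟩
      exact ⟨(e ⟨x, hx'⟩ : N₂), (e ⟨x, hx'⟩).2, (hx ⟨x, hx'⟩).symm⟩
    · rintro ⟨y, hy, rfl⟩
      refine ⟨(e.symm ⟨y, hy⟩ : N₁), (e.symm ⟨y, hy⟩).2, ?_⟩
      have h5 := hx (e.symm ⟨y, hy⟩)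
      rw [Language.Equiv.apply_symm_apply] at h5
      exact h5
  have h5 := (I.inv N₁ N g₁ hg₁ _ _ _).1 h₁
  rw [key Q hQR, key R le_rfl, hcl] at h5
  exact (I.inv N₂ N g₂ hg₂ _ _ _).2 h5

theorem exists_nf (hK : K.HasClosures) {M N : Type w} [L.Structure M] [L.Structure N]
    {f : M ↪[L] N} (hf : K.StrongEmb f) (a : N) {Q : L.Substructure M}
    (hQ : K.Strong M Q) :
    ∃ (N' : Type w) (_ : L.Structure N') (f' : M ↪[L] N') (a' : N'), K.StrongEmb f' ∧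
      (K.Isos f a f' a' Q).Nonempty ∧
      I.Ind N' (Q.map f'.toHom) (K.clOver f' a' Q) f'.toHom.range := by
  have s1 : K.Strong N (K.clOver f a Q) := strong_clOver hK hf hQ
  let j : Q ↪[L] K.clOver f a Q :=
    Embedding.codRestrict (K.clOver f a Q) (f.comp Q.subtype) (fun q => mem_clOver_of_mem q.2)
  have hj : K.StrongEmb j := by
    have h1 := K.coherence N (Q.map f.toHom) (K.clOver f a Q) (hf.map hQ) s1 (by
      rintro _ ⟨q, hq, rfl⟩
      exact mem_clOver_of_mem hq)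
    have h2 : (Q.map f.toHom).comap (K.clOver f a Q).subtype.toHom = j.toHom.range := by
      ext x
      constructor
      · rintro ⟨q, hq, hqx⟩
        exact ⟨⟨q, hq⟩, Subtype.ext hqx⟩
      · rintro ⟨q, rfl⟩
        exact ⟨q, q.2, rfl⟩
    rw [h2] at h1
    exact h1
  obtain ⟨N', hN', g₁, g₂, hg₁, hg₂, hm, hI⟩ :=
    I.exist Q (K.clOver f a Q) M j Q.subtype hj (strong_subtype hQ)
  have hm' : ∀ (m : M) (hm0 : m ∈ Q) (x : K.clOver f a Q), (x : N) = f m → g₁ x = g₂ m := by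
    intro m hm0 x hx
    have h1 : x = j ⟨m, hm0⟩ := Subtype.ext hx
    rw [h1]
    exact hm ⟨m, hm0⟩
  -- the closure of `f Q` and `a` inside the closure
  have hA : Subtype.val '' (insert (⟨a, mem_clOver_base⟩ : K.clOver f a Q) (Set.range j)) =
      insert a (f '' (Q : Set M)) := by
    rw [Set.image_insert_eq]
    congr 1
    ext z
    constructor
    · rintro ⟨_, ⟨q, rfl⟩, rfl⟩
      exact ⟨q, q.2, rfl⟩
    · rintro ⟨q, hq, rfl⟩
      exact ⟨_, ⟨⟨q, hq⟩, rfl⟩, rfl⟩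
  have hcs : K.Strong (K.clOver f a Q)
      (K.cl (insert (⟨a, mem_clOver_base⟩ : K.clOver f a Q) (Set.range j))) :=
    hK (K.clOver f a Q) j.toHom.range ⟨a, mem_clOver_base⟩ hj
  have htop : K.cl (insert (⟨a, mem_clOver_base⟩ : K.clOver f a Q) (Set.range j)) = ⊤ := by
    have h1 := cl_image (strong_subtype s1) hcs (by
      show K.Strong N (K.cl (Subtype.val '' _))
      rw [hA]
      exact s1)
    have h2 : K.cl (Subtype.val '' (insert (⟨a, mem_clOver_base⟩ : K.clOver f a Q) (Set.range j)))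
        = (K.cl (insert (⟨a, mem_clOver_base⟩ : K.clOver f a Q) (Set.range j))).map
          (K.clOver f a Q).subtype.toHom := h1
    rw [hA] at h2
    rw [eq_top_iff]
    intro x _
    have h3 : (x : N) ∈ K.cl (insert a (f '' (Q : Set M))) := x.2
    rw [h2] at h3
    obtain ⟨y, hy, hyx⟩ := h3
    have h4 : y = x := Subtype.ext hyx
    rw [← h4]
    exact hy
  have himg : g₁ '' (insert (⟨a, mem_clOver_base⟩ : K.clOver f a Q) (Set.range j)) =
      insert (g₁ ⟨a, mem_clOver_base⟩) (g₂ '' (Q : Set M)) := by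
    rw [Set.image_insert_eq]
    congr 1
    ext z
    constructor
    · rintro ⟨_, ⟨q, rfl⟩, rfl⟩
      exact ⟨q, q.2, (hm q).symm⟩
    · rintro ⟨q, hq, rfl⟩
      exact ⟨_, ⟨⟨q, hq⟩, rfl⟩, hm ⟨q, hq⟩⟩
  have hrange : K.clOver g₂ (g₁ ⟨a, mem_clOver_base⟩) Q = g₁.toHom.range := by
    have h0 : K.Strong N' (K.clOver g₂ (g₁ ⟨a, mem_clOver_base⟩) Q) := strong_clOver hK hg₂ hQ
    have h1 := cl_image hg₁ hcs (by
      rw [himg]
      exact h0)
    rw [himg, htop, ← Hom.range_eq_map] at h1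
    exact h1
  have hQm : (g₁.comp j).toHom.range = Q.map g₂.toHom := by
    ext z
    constructor
    · rintro ⟨q, rfl⟩
      exact ⟨q, q.2, (hm q).symm⟩
    · rintro ⟨q, hq, rfl⟩
      exact ⟨⟨q, hq⟩, hm ⟨q, hq⟩⟩
  have key : ∀ T : L.Substructure N', T = g₁.toHom.range →
      ∃ u : K.clOver f a Q ≃[L] T, ∀ x, (u x : N') = g₁ x := by
    intro T hT
    subst hT
    exact ⟨g₁.equivRange, fun x => rfl⟩
  obtain ⟨u, hu⟩ := key _ hrange
  refine ⟨N', hN', g₂, g₁ ⟨a, mem_clOver_base⟩, hg₂, ⟨u, ?_, ?_⟩, ?_⟩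
  · intro m hm0 x hx
    rw [hu x]
    exact hm' m hm0 x hx
  · intro x hx
    rw [hu x]
    congr 1
    exact Subtype.ext hx
  · rw [hrange, ← hQm]
    exact hI

end WeaklyStable

end AEC

end Pool.Agent.H85.AECT
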