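import Pool.Agent.H85.AECT.Closing

set_option autoImplicit false

/-!
# Resolutions above a given small substructure

PROOF. As `exists_resolution` in `H85/AECT/Closing.lean`, applied inside the structure `R` (all
substructures of `R` are pushed to `M` by `map R.subtype.toHom`; `(strong_subtype hR).map` gives
strongness), but start every step with the additional set `Q`: take
`P i = ub (Q ∪ e '' Set.Iic i ∪ ⋃ j < i, P j)`. The sizes are then at most `#(Iic i) + #Q + LS`,
which is `< #R`.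
-/

open FirstOrder FirstOrder.Language Cardinal

namespace Pool.Agent.H85.AECT

universe w

variable {L : FirstOrder.Language.{w, w}} {K : AEC L}

namespace AEC

private theorem exists_resolution_above_top {M : Type w} [L.Structure M] (hM : K.Mem M)
    (Q : L.Substructure M) (hQ : #Q < #M) (hc : K.LS < #M) :
    ∃ C : Set (L.Substructure M), C.Nonempty ∧ IsChain (· ≤ ·) C ∧ sSup C = ⊤ ∧
      ∀ S ∈ C, K.Strong M S ∧ Q ≤ S ∧ #S < #M := by
  classical
  have hLS0 : ℵ₀ ≤ K.LS := (ls_spec (K := K)).1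
  have hinf : ℵ₀ ≤ #M := hLS0.trans hc.le
  obtain ⟨e⟩ : Nonempty ((#M).ord.ToType ≃ M) := Cardinal.eq.mp (by simp)
  choose ub hub using fun A : Set M => (ls_spec (K := K)).2.2 M hM A
  let step : (i : (#M).ord.ToType) → ((j : (#M).ord.ToType) → j < i → L.Substructure M) →
      L.Substructure M :=
    fun i g => ub ((Q : Set M) ∪ ((e '' Set.Iic i) ∪ ⋃ j : Set.Iio i, (g j.1 j.2 : Set M)))
  let P : (#M).ord.ToType → L.Substructure M := WellFounded.fix wellFounded_lt step
  have hP : ∀ i, P i =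
      ub ((Q : Set M) ∪ ((e '' Set.Iic i) ∪ ⋃ j : Set.Iio i, (P j.1 : Set M))) := fun i =>
    WellFounded.fix_eq wellFounded_lt step i
  have hPs : ∀ i, K.Strong M (P i) := by
    intro i
    rw [hP i]
    exact (hub _).1
  have hPsub0 : ∀ i, (Q : Set M) ∪ ((e '' Set.Iic i) ∪ ⋃ j : Set.Iio i, (P j.1 : Set M)) ⊆
      (P i : Set M) := by
    intro i
    conv_rhs => rw [hP i]
    exact (hub _).2.1
  have hPQ : ∀ i, Q ≤ P i := fun i x hx => hPsub0 i (Or.inl hx)
  have hPsub : ∀ i, (e '' Set.Iic i) ∪ (⋃ j : Set.Iio i, (P j.1 : Set M)) ⊆ (P i : Set M) :=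
    fun i => Set.subset_union_right.trans (hPsub0 i)
  have hPmono : ∀ i j : (#M).ord.ToType, i ≤ j → P i ≤ P j := by
    intro i j hij
    rcases hij.eq_or_lt with rfl | h
    · exact le_rfl
    · intro x hx
      exact hPsub j (Or.inr (Set.mem_iUnion.mpr ⟨⟨i, h⟩, hx⟩))
  have hPc : ∀ i, #(P i) ≤ #(Set.Iic i) + (#Q + K.LS) := by
    intro i
    induction i using WellFoundedLT.induction with
    | ind i ih =>
    rw [hP i]
    refine (hub _).2.2.trans ?_
    have hIic : ℵ₀ ≤ #(Set.Iic i) + (#Q + K.LS) :=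
      hLS0.trans ((self_le_add_left _ _).trans (self_le_add_left _ _))
    have h1 : #(⋃ j : Set.Iio i, (P j.1 : Set M)) ≤ #(Set.Iic i) + (#Q + K.LS) := by
      apply mk_union_le_of hIic
      · exact (Cardinal.mk_le_mk_of_subset Set.Iio_subset_Iic_self).trans (self_le_add_right _ _)
      · intro j
        refine (ih j.1 j.2).trans (add_le_add ?_ le_rfl)
        exact Cardinal.mk_le_mk_of_subset (Set.Iic_subset_Iic.mpr (le_of_lt j.2))
    have h2 : #((e '' Set.Iic i) ∪ ⋃ j : Set.Iio i, (P j.1 : Set M) : Set M) ≤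
        #(Set.Iic i) + (#Q + K.LS) := by
      refine (Cardinal.mk_union_le _ _).trans ?_
      have h0 : #(e '' Set.Iic i) ≤ #(Set.Iic i) + (#Q + K.LS) :=
        Cardinal.mk_image_le.trans (self_le_add_right (#(Set.Iic i)) (#Q + K.LS))
      refine (add_le_add h0 h1).trans ?_
      exact (Cardinal.add_eq_self hIic).le
    have h3 : #((Q : Set M) ∪ ((e '' Set.Iic i) ∪ ⋃ j : Set.Iio i, (P j.1 : Set M)) : Set M) ≤
        #(Set.Iic i) + (#Q + K.LS) := by
      refine (Cardinal.mk_union_le _ _).trans ?_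
      have h4 : #((Q : Set M)) ≤ #(Set.Iic i) + (#Q + K.LS) :=
        (self_le_add_right (#Q) K.LS).trans (self_le_add_left _ _)
      refine (add_le_add h4 h2).trans ?_
      exact (Cardinal.add_eq_self hIic).le
    exact (add_le_add h3 ((self_le_add_left K.LS (#Q)).trans (self_le_add_left _ _))).trans
      (Cardinal.add_eq_self hIic).le
  have hIic : ∀ i : (#M).ord.ToType, #(Set.Iic i) < #M := by
    intro i
    have h1 : #(Set.Iio i) < #M := by simpa using Cardinal.mk_Iio_lt i
    have h2 : Set.Iic i = insert i (Set.Iio i) := (Set.Iio_insert).symm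
    rw [h2]
    exact Cardinal.mk_insert_le.trans_lt
      (Cardinal.add_lt_of_lt hinf h1 (Cardinal.one_lt_aleph0.trans_le hinf))
  have hne : Nonempty (#M).ord.ToType := by
    have : Nonempty M := Cardinal.mk_ne_zero_iff.mp
      (Cardinal.aleph0_pos.trans_le hinf).ne'
    exact e.nonempty
  refine ⟨Set.range P, Set.range_nonempty _, ?_, ?_, ?_⟩
  · rintro _ ⟨i, rfl⟩ _ ⟨j, rfl⟩ _
    rcases le_total i j with h | h
    · exact Or.inl (hPmono _ _ h)
    · exact Or.inr (hPmono _ _ h)
  · rw [eq_top_iff]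
    intro x _
    have h1 : x ∈ P (e.symm x) := hPsub _ (Or.inl ⟨e.symm x, Set.mem_Iic.mpr le_rfl, by simp⟩)
    exact (le_sSup (Set.mem_range_self _) : P (e.symm x) ≤ sSup (Set.range P)) h1
  · rintro _ ⟨i, rfl⟩
    exact ⟨hPs i, hPQ i, (hPc i).trans_lt (Cardinal.add_lt_of_lt hinf (hIic i)
      (Cardinal.add_lt_of_lt hinf hQ hc))⟩

theorem exists_resolution_above {M : Type w} [L.Structure M] {Q R : L.Substructure M}
    (hR : K.Strong M R) (hQR : Q ≤ R) (hQc : #Q < #R) (hc : K.LS < #R) :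
    ∃ C : Set (L.Substructure M), C.Nonempty ∧ IsChain (· ≤ ·) C ∧ sSup C = R ∧
      ∀ S ∈ C, K.Strong M S ∧ Q ≤ S ∧ #S < #R := by
  have hQ' : #(Q.comap R.subtype.toHom : L.Substructure R) < #R := by
    refine lt_of_le_of_lt ?_ hQc
    refine Cardinal.mk_le_of_injective (f := fun x => (⟨(x.1 : M), x.2⟩ : Q)) ?_
    intro x y hxy
    have h1 : (x.1 : M) = (y.1 : M) := congrArg (fun z : Q => (z : M)) hxy
    exact Subtype.ext (Subtype.ext h1)
  obtain ⟨C, hC, hch, htop, hCs⟩ := exists_resolution_above_top (K.mem_of_strong _ _ hR).2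
    (Q.comap R.subtype.toHom) hQ' hc
  refine ⟨(fun S => S.map R.subtype.toHom) '' C, hC.image _, ?_, ?_, ?_⟩
  · rintro _ ⟨S, hS, rfl⟩ _ ⟨T, hT, rfl⟩ _
    rcases hch.total hS hT with h | h
    · exact Or.inl (Substructure.monotone_map h)
    · exact Or.inr (Substructure.monotone_map h)
  · apply le_antisymm
    · apply sSup_le
      rintro _ ⟨S, hS, rfl⟩
      rintro _ ⟨x, _, rfl⟩
      exact x.2
    · intro x hx
      have h1 : (⟨x, hx⟩ : R) ∈ sSup C := by
        rw [htop]
        exact Substructure.mem_top _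
      rw [Substructure.mem_sSup_of_directedOn hC hch.directedOn] at h1
      obtain ⟨S, hS, hxS⟩ := h1
      exact (le_sSup ⟨S, hS, rfl⟩ : S.map R.subtype.toHom ≤
        sSup ((fun S => S.map R.subtype.toHom) '' C)) ⟨⟨x, hx⟩, hxS, rfl⟩
  · rintro _ ⟨S, hS, rfl⟩
    obtain ⟨h1, h2, h3⟩ := hCs S hS
    refine ⟨(strong_subtype hR).map h1, ?_, ?_⟩
    · intro x hx
      exact ⟨⟨x, hQR hx⟩, h2 hx, rfl⟩
    · refine lt_of_le_of_lt ?_ h3
      exact Cardinal.mk_image_le (f := R.subtype.toHom) (s := (S : Set R))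

end AEC

end Pool.Agent.H85.AECT
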