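import Pool.Agent.H85.WS.Over
import Pool.Agent.H85.WS.Glue
import Pool.Agent.H85.WS.Resol

set_option autoImplicit false

/-!
# Independence from all small models gives independence

PROOF of `ind_of_small`, by induction on `#R`. If `#R ≤ θ` this is the hypothesis. Let `#R > θ`.
By `exists_resolution_above` (with `Q.1`) there is a chain `C` of strong substructures `S` of `M`
with `Q.1 ≤ S`, `#S < #R` and `sSup C = R`. By induction the claim holds for all `S ∈ C`.

Let `(N', f', a')` be given by `exists_nf` for `Q.1`; so `a'` is independent from all of `f' M` over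
`f' Q`, in particular (`mono_right`) from `f' S` for every strong `S ≥ Q.1`.

Let `F` be the set of all `sSup E` with `E ⊆ C` nonempty. It is a chain, closed under suprema of
nonempty subsets, its members are strong (`K.smooth`) and contain `Q.1`, and every `S ∈ F` with
`S ≠ R` is below some member of `C` (if no member of `C` is above `S = sSup E` then, `C` being a
chain, every member of `C` is below `S`, so `S = R`), so `S < T` for some `T ∈ C`.

Consider pairs `(S, e)` with `S ∈ F` and `e ∈ Isos f a f' a' S`, where `(S, e) ≤ (T, e')` if `S ≤ T`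
and `e'` extends `e`. There is such a pair: for `S ∈ C` use `isos_extend` for `Q.1 ≤ S` and an
element of `Isos f a f' a' Q.1`. Nonempty chains of pairs have upper bounds by `isos_glue`
(coherence `hcoh` follows from comparability). By Zorn (`exists_maximal_of_nonempty_chains_bounded`)
there is a maximal pair `(S, e)`. If `S ≠ R` take `T ∈ C` with `S < T`; `a` is independent from `f T`
over `f Q` by induction, so over `f S` by `base_mono_over`, and the same for `a'`; so `isos_extend`
gives a larger pair, a contradiction. So `S = R` and there is `e ∈ Isos f a f' a' R`. By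
`amalgam_of_isos` (amalgamation follows from `I.exist`) and `ind_transfer` (from `N'` to `N`) we get
the claim for `R`.
-/

open FirstOrder FirstOrder.Language Cardinal

namespace Pool.Agent.H85.AECT

universe w

variable {L : FirstOrder.Language.{w, w}} {K : AEC L}

namespace AEC

namespace WeaklyStable

variable (I : K.WeaklyStable)

include I in
theorem amalgamation : K.Amalgamation := by
  intro M N₁ N₂ _ _ _ f₁ f₂ hf₁ hf₂
  obtain ⟨N, hN, g₁, g₂, h₁, h₂, hg, _⟩ := I.exist M N₁ N₂ f₁ f₂ hf₁ hf₂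
  exact ⟨N, hN, g₁, g₂, h₁, h₂, hg⟩

theorem ind_of_small (hK : K.HasClosures) {θ : Cardinal.{w}} (hLS : K.LS ≤ θ) {M N : Type w}
    [L.Structure M] [L.Structure N] {f : M ↪[L] N} {a : N} (hf : K.StrongEmb f)
    {Q : K.Sml M θ}
    (h : ∀ R : K.Sml M θ, Q.1 ≤ R.1 →
      I.Ind N (Q.1.map f.toHom) (K.clOver f a Q.1) (R.1.map f.toHom)) :
    ∀ R : L.Substructure M, K.Strong M R → Q.1 ≤ R →
      I.Ind N (Q.1.map f.toHom) (K.clOver f a Q.1) (R.map f.toHom) := by
  obtain ⟨N', hN', f', a', hf', ⟨e0, he0⟩, hI'⟩ := I.exists_nf hK hf a Q.2.1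
  have hI : ∀ S : L.Substructure M, K.Strong M S → Q.1 ≤ S →
      I.Ind N' (Q.1.map f'.toHom) (K.clOver f' a' Q.1) (S.map f'.toHom) := by
    intro S hS hQS
    refine I.mono_right hI' (hf'.map hS) (Substructure.monotone_map hQS) ?_
    rintro _ ⟨m, _, rfl⟩
    exact ⟨m, rfl⟩
  have main : ∀ (c : Cardinal.{w}) (R : L.Substructure M), #R = c → K.Strong M R → Q.1 ≤ R →
      I.Ind N (Q.1.map f.toHom) (K.clOver f a Q.1) (R.map f.toHom) := by
    intro c
    induction c using WellFoundedLT.induction with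
    | ind c ih =>
    intro R hRc hR hQR
    rcases le_or_gt (#R) θ with hle | hlt
    · exact h ⟨R, hR, hle⟩ hQR
    obtain ⟨C, hC, hch, hsup, hCs⟩ :=
      exists_resolution_above hR hQR (Q.2.2.trans_lt hlt) (hLS.trans_lt hlt)
    have hind : ∀ S ∈ C, I.Ind N (Q.1.map f.toHom) (K.clOver f a Q.1) (S.map f.toHom) := by
      intro S hS
      exact ih (#S) (by rw [← hRc]; exact (hCs S hS).2.2) S rfl (hCs S hS).1 (hCs S hS).2.1
    -- suprema of subsets of `C`
    let F : Set (L.Substructure M) := {S | ∃ E ⊆ C, E.Nonempty ∧ sSup E = S}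
    have hF1 : ∀ S ∈ F, K.Strong M S ∧ Q.1 ≤ S ∧ S ≤ R := by
      rintro S ⟨E, hE, hEne, rfl⟩
      refine ⟨K.smooth M E hEne (hch.mono hE) (fun T hT => (hCs T (hE hT)).1), ?_, ?_⟩
      · obtain ⟨T, hT⟩ := hEne
        exact (hCs T (hE hT)).2.1.trans (le_sSup hT)
      · rw [← hsup]
        exact sSup_le_sSup hE
    have hF2 : ∀ S ∈ F, ∀ T ∈ F, S ≤ T ∨ T ≤ S := by
      rintro S ⟨E, hE, hEne, rfl⟩ T ⟨E', hE', hEne', rfl⟩
      by_cases hcase : ∀ s ∈ E, s ≤ sSup E'
      · exact Or.inl (sSup_le hcase)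
      · push Not at hcase
        obtain ⟨s, hs, hs'⟩ := hcase
        refine Or.inr (sSup_le fun t ht => ?_)
        rcases hch.total (hE hs) (hE' ht) with h1 | h1
        · exact absurd (h1.trans (le_sSup ht)) hs'
        · exact h1.trans (le_sSup hs)
    have hF3 : ∀ D ⊆ F, D.Nonempty → sSup D ∈ F := by
      intro D hD hDne
      refine ⟨{s | s ∈ C ∧ ∃ S ∈ D, s ≤ S}, fun s hs => hs.1, ?_, ?_⟩
      · obtain ⟨S, hS⟩ := hDne
        obtain ⟨E, hE, ⟨s, hs⟩, hES⟩ := hD hS
        exact ⟨s, hE hs, S, hS, by rw [← hES]; exact le_sSup hs⟩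
      · apply le_antisymm
        · apply sSup_le
          rintro s ⟨_, S, hS, hsS⟩
          exact hsS.trans (le_sSup hS)
        · apply sSup_le
          intro S hS
          obtain ⟨E, hE, _, hES⟩ := hD hS
          rw [← hES]
          apply sSup_le
          intro s hs
          exact le_sSup ⟨hE hs, S, hS, by rw [← hES]; exact le_sSup hs⟩
    have hFC : ∀ T ∈ C, T ∈ F := fun T hT =>
      ⟨{T}, Set.singleton_subset_iff.mpr hT, Set.singleton_nonempty T, sSup_singleton⟩
    have hF4 : ∀ S ∈ F, S ≠ R → ∃ T ∈ C, S < T := by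
      intro S hS hSR
      by_contra hcon
      push Not at hcon
      apply hSR
      apply le_antisymm (hF1 S hS).2.2
      rw [← hsup]
      apply sSup_le
      intro T hT
      rcases hF2 S hS T (hFC T hT) with h1 | h1
      · rcases h1.lt_or_eq with h2 | h2
        · exact absurd h2 (hcon T hT)
        · exact h2.symm.le
      · exact h1
    -- pairs
    let P : Type w := {p : (Σ S : L.Substructure M, (K.clOver f a S ≃[L] K.clOver f' a' S)) //
      p.1 ∈ F ∧ p.2 ∈ K.Isos f a f' a' p.1}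
    let r : P → P → Prop := fun p q => p.1.1 ≤ q.1.1 ∧
      ∀ (x : K.clOver f a p.1.1) (y : K.clOver f a q.1.1), (x : N) = y →
        (p.1.2 x : N') = q.1.2 y
    have hPne : Nonempty P := by
      obtain ⟨S, hS⟩ := hC
      obtain ⟨e', he', _⟩ := I.isos_extend hK hf hf' Q.2.1 (hCs S hS).1 (hCs S hS).2.1
        (hind S hS) (hI S (hCs S hS).1 (hCs S hS).2.1) he0
      exact ⟨⟨⟨S, e'⟩, hFC S hS, he'⟩⟩
    have hchain : ∀ c : Set P, IsChain r c → c.Nonempty → ∃ ub, ∀ p ∈ c, r p ub := by
      intro c hc hcne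
      have htot : ∀ p ∈ c, ∀ q ∈ c, p = q ∨ r p q ∨ r q p := by
        intro p hp q hq
        by_cases hpq : p = q
        · exact Or.inl hpq
        · exact Or.inr (hc hp hq hpq)
      obtain ⟨e, he, hext⟩ := isos_glue (f₁ := f) (a₁ := a) (f₂ := f') (a₂ := a') hK hf hf'
        (Subtype.val '' c) (hcne.image _)
        (by
          rintro _ ⟨p, _, rfl⟩
          exact ⟨(hF1 _ p.2.1).1, p.2.2⟩)
        (by
          rintro _ ⟨p, _, rfl⟩ _ ⟨q, _, rfl⟩
          exact hF2 _ p.2.1 _ q.2.1)
        (by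
          rintro _ ⟨p, hp, rfl⟩ _ ⟨q, hq, rfl⟩ x y hxy
          rcases htot p hp q hq with h1 | h1 | h1
          · subst h1
            have h2 : x = y := Subtype.ext hxy
            rw [h2]
          · exact h1.2 x y hxy
          · exact (h1.2 y x hxy.symm).symm)
      have hmemF : sSup (Sigma.fst '' (Subtype.val '' c)) ∈ F := by
        apply hF3
        · rintro _ ⟨_, ⟨p, _, rfl⟩, rfl⟩
          exact p.2.1
        · exact (hcne.image _).image _
      refine ⟨⟨⟨sSup (Sigma.fst '' (Subtype.val '' c)), e⟩, hmemF, he⟩, ?_⟩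
      intro p hp
      refine ⟨le_sSup ⟨p.1, ⟨p, hp, rfl⟩, rfl⟩, ?_⟩
      intro x y hxy
      exact hext p.1 ⟨p, hp, rfl⟩ x y hxy
    have htrans : ∀ {p q s : P}, r p q → r q s → r p s := by
      intro p q s hpq hqs
      refine ⟨hpq.1.trans hqs.1, fun x z hxz => ?_⟩
      have hx : (x : N) ∈ K.clOver f a q.1.1 := clOver_mono hpq.1 x.2
      rw [hpq.2 x ⟨x, hx⟩ rfl]
      exact hqs.2 ⟨x, hx⟩ z hxz
    obtain ⟨m, hm⟩ := exists_maximal_of_nonempty_chains_bounded hchain htrans
    have hmR : m.1.1 = R := by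
      by_contra hne
      obtain ⟨T, hT, hlt'⟩ := hF4 _ m.2.1 hne
      have hS := hF1 _ m.2.1
      have h1 := I.base_mono_over hK hf hS.1 hS.2.1 hlt'.le (hind T hT)
      have h2 := I.base_mono_over hK hf' hS.1 hS.2.1 hlt'.le
        (hI T (hCs T hT).1 (hCs T hT).2.1)
      obtain ⟨e', he', hext⟩ := I.isos_extend hK hf hf' hS.1 (hCs T hT).1 hlt'.le h1 h2 m.2.2
      have h3 := hm ⟨⟨T, e'⟩, hFC T hT, he'⟩ ⟨hlt'.le, hext⟩
      exact absurd h3.1 (not_le_of_gt hlt')
    obtain ⟨⟨S, e⟩, hSF, he⟩ := m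
    have hSR : S = R := hmR
    subst hSR
    obtain ⟨N'', _, g₁, g₂, hg₁, hg₂, hmm, ha, _⟩ :=
      amalgam_of_isos hK I.amalgamation hf hf' hR he
    exact I.ind_transfer hK hf' hf hg₂ hg₁ Q.2.1 hR hQR (fun m hm => (hmm m hm).symm) ha.symm
      (hI S hR hQR)
  intro R hR hQR
  exact main _ R rfl hR hQR

end WeaklyStable

end AEC

end Pool.Agent.H85.AECT
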