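import Pool.Agent.H85.WS.Mono

set_option autoImplicit false

/-!
# Trees of independent copies of a chain
-/

open FirstOrder FirstOrder.Language Cardinal

namespace Pool.Agent.H85.AECT

universe w

variable {L : FirstOrder.Language.{w, w}} {K : AEC L}

namespace AEC

namespace WeaklyStable

/-- A tree of copies of the chain `P 0 ≤ P 1 ≤ ...` of strong substructures of `N`, indexed by the
finite sequences `s : Fin n → Λ`: structures `Q 0 → Q 1 → ...` of size at most `μ` and copies
`F n s : P n → Q n` such that the copy for `s : Fin (n + 1) → Λ` extends the one for its initial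
segment, is independent from `Q n` over it, and different copies with the same initial segment are
independent over it. -/
structure Tree (I : K.WeaklyStable) {N : Type w} [L.Structure N] (P : ℕ → L.Substructure N)
    (hmono : ∀ n, P n ≤ P (n + 1)) (Λ : Type w) (μ : Cardinal.{w}) where
  /-- the levels -/
  Q : ℕ → Type w
  /-- their structure -/
  [str : ∀ n, L.Structure (Q n)]
  /-- the embeddings of the levels -/
  u : ∀ n, Q n ↪[L] Q (n + 1)
  /-- the copies -/
  F : ∀ n, (Fin n → Λ) → (P n ↪[L] Q n)
  /-- strongness -/
  strong_u : ∀ n, K.StrongEmb (u n)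
  /-- strongness -/
  strong_F : ∀ n s, K.StrongEmb (F n s)
  /-- size -/
  card_le : ∀ n, #(Q n) ≤ μ
  /-- compatibility -/
  F_succ : ∀ n (s : Fin (n + 1) → Λ) (x : P n),
    F (n + 1) s (Substructure.inclusion (hmono n) x) = u n (F n (fun k => s k.castSucc) x)
  /-- independence from the previous level -/
  ind_level : ∀ n (s : Fin (n + 1) → Λ),
    I.Ind (Q (n + 1)) ((F n (fun k => s k.castSucc)).toHom.range.map (u n).toHom)
      (F (n + 1) s).toHom.range (u n).toHom.range
  /-- independence of different copies -/
  ind_ne : ∀ n (s s' : Fin (n + 1) → Λ), s ≠ s' →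
    (fun k : Fin n => s k.castSucc) = (fun k : Fin n => s' k.castSucc) →
    I.Ind (Q (n + 1)) ((F n (fun k => s k.castSucc)).toHom.range.map (u n).toHom)
      (F (n + 1) s).toHom.range (F (n + 1) s').toHom.range

attribute [instance] Tree.str

end WeaklyStable

end AEC

end Pool.Agent.H85.AECT
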